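import Pool.Agent.Run7.h385.PT.Stm

/-! # Project PT: all classes together, long ranges -/

set_option autoImplicit false

namespace Pool.Agent.Run7.h385.PT

open Finset hiding box
open Pool.Agent.H373R2.T7
open Pool.Agent.H807R2.Dav
open Pool.Agent.Run7.h385.PO
open Pool.Agent.Run7.h385.PQ

lemma singh_congr {g k : ℕ} (f f' : Fin g → ℕ → ℤ) (h : Fin k → ℕ) (w : ℕ)
    (hp : ∀ p ∈ pz w, ∀ l n, (p : ℤ) ∣ f l n - f' l n) : singh f h w = singh f' h w := by
  unfold singh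
  apply prod_congr rfl
  intro p hpw
  have e : omh f h p = omh f' h p := by
    unfold omh
    congr 1
    apply filter_congr
    intro n _
    constructor
    · rintro ⟨l, i, h1⟩
      refine ⟨l, i, ?_⟩
      have := dvd_sub h1 (hp p hpw l (n + h i))
      rwa [sub_sub_cancel] at this
    · rintro ⟨l, i, h1⟩
      refine ⟨l, i, ?_⟩
      have := dvd_add h1 (hp p hpw l (n + h i))
      rwa [add_sub_cancel] at this
  rw [e]

/-- the admissible systems -/
noncomputable def Admh {g d k : ℕ} (X : ℕ) (F : Fin g → ℕ → ℤ) (h : Fin k → ℕ) (a : Fin g → Fin d → ℤ)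
    (Y : Fin g → Fin d → ℕ) : Finset (Fin g → Fin d → ℤ) := (cbox a Y).filter (fun c => 0 < singh (fv F c) h (ww X))

/-- the relative weighted count -/
noncomputable def rel {g k : ℕ} (X d : ℕ) (f : Fin g → ℕ → ℤ) (h : Fin k → ℕ) (m M : ℕ) : ℝ :=
  psi X d f h m M / (singh f h (ww X) * M)

theorem blockh (hCT : S_CT) (d g k C C1 : ℕ) (hd : 2 ≤ d) (hg : 1 ≤ g) (hk1 : 1 ≤ k) (hk : k + 1 ≤ d) :
    ∃ B : ℕ, ∀ ε : ℝ, 0 < ε → ∃ X0 : ℕ, ∀ X : ℕ, X0 ≤ X →
    ∀ m : ℕ, ((m : ℝ) + 1) ^ (5 * (d - 1)) * Real.log X ^ B ≤ X → ∀ M : ℕ, Real.log X ^ (g * k + 1) ≤ M →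
    (M : ℝ) ≤ Real.log X ^ C → ∀ h : Fin k → ℕ, Function.Injective h → (∀ i, (h i : ℝ) ≤ Real.log X ^ C) →
    ∀ F : Fin g → ℕ → ℤ, (∀ l, ∀ p n : ℕ, (p : ℤ) ∣ F l (n + p) - F l n) →
    (∀ l, ∀ n : ℕ, m < n → (n : ℝ) ≤ m + Real.log X ^ (C + 1) →
      |(F l n : ℝ)| ≤ X * ((m : ℝ) + 1) ^ (d - 1) * Real.log X ^ C1) →
    ∀ (a : Fin g → Fin d → ℤ) (Y : Fin g → Fin d → ℕ),
    (∀ l j, |(a l j : ℝ)| ≤ X ∧ (X : ℝ) / Real.log X ^ C1 ≤ Y l j ∧ (Y l j : ℝ) ≤ X) →
    ∑ c ∈ Admh X F h a Y, (rel X d (fv F c) h m M - 1) ^ 2 ≤ ε * (Admh X F h a Y).card := by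
  classical
  obtain ⟨B, hB⟩ := hCT d g k (C + 1 + C1 + (C + 1) * d + 2) hd hg hk1 hk
  refine ⟨B, fun ε hε => ?_⟩
  obtain ⟨n1, h1⟩ := hB ε hε
  obtain ⟨n2, h2⟩ := facts2 Run7.h215.PO.t_WSMALL g d (C + 1) C1 hd
  obtain ⟨n3, h3⟩ := ev_L' 2
  refine ⟨max n1 (max n2 n3), fun X hX m hm M hM1 hM2 h hinj hh F hper hFb a Y haY => ?_⟩
  have a1 := h1 X (le_trans (le_max_left _ _) hX) m hm M hM1
  obtain ⟨hW1, hL1, h4⟩ := h2 X (le_trans (le_trans (le_max_left _ _) (le_max_right _ _)) hX)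
  have hL2 := h3 X (le_trans (le_trans (le_max_right _ _) (le_max_right _ _)) hX)
  have a2 := h4 m F hFb a Y haY
  set L := Real.log X with hL
  set W := WW X with hW
  have hLC : L ^ C ≤ L ^ (C + 1 + C1 + (C + 1) * d + 2) := pow_le_pow_right₀ hL1 (by omega)
  have hM0 : (0 : ℝ) < M := lt_of_lt_of_le (by positivity) hM1
  set Φ : (Fin g → Fin d → ℤ) → ℝ := fun c => if 0 < singh (fv F c) h (ww X) then
    (rel X d (fv F c) h m M - 1) ^ 2 else 0 with hΦ
  set Ψ : (Fin g → Fin d → ℤ) → ℝ := fun c => if 0 < singh (fv F c) h (ww X) then ε else 0 with hΨ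
  have e1 : ∑ c ∈ Admh X F h a Y, (rel X d (fv F c) h m M - 1) ^ 2 = ∑ c ∈ cbox a Y, Φ c := by
    unfold Admh
    rw [hΦ, ← sum_filter]
  have e2 : ε * ((Admh X F h a Y).card : ℝ) = ∑ c ∈ cbox a Y, Ψ c := by
    unfold Admh
    rw [hΨ, ← sum_filter, sum_const, nsmul_eq_mul, mul_comm]
  rw [e1, e2]
  refine (le_abs_self _).trans ?_
  apply glob Run7.h416.PO.t_SPLIT g d W hW1 a Y Φ Ψ
  intro r hr
  obtain ⟨b1, b2⟩ := a2 r hr
  set c0 : Fin g → Fin d → ℤ := fun l j => a l j + r l j with hc0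
  set u : Fin g → ℕ → ℤ := fv F c0 with hu
  have hval : ∀ t : Fin g → Fin d → ℤ, fv F (fun l j => a l j + r l j + W * t l j) = fun l n => u l n + ev W (t l) n :=
    fun t => fv_split F a r t W
  have hsing : ∀ t : Fin g → Fin d → ℤ, singh (fv F (fun l j => a l j + r l j + W * t l j)) h (ww X) =
      singh u h (ww X) := by
    intro t
    rw [hval]
    apply singh_congr
    intro p hp l n
    simp only [add_sub_cancel_left]
    unfold ev
    exact (dvd_WW hp).mul_right _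
  set S := singh u h (ww X) with hS
  by_cases hE : 0 < S
  · have h5 := a1 (hM2.trans hLC) h hinj (fun i => (hh i).trans hLC) u (per_fv F c0 hper) (by
      intro l i n hn1 hn2
      apply b2 l (n + h i) (by omega)
      have g1 := hh i
      have g2 : (n : ℝ) ≤ m + M := by exact_mod_cast hn2
      have g3 : L ^ C * 2 ≤ L ^ C * L := mul_le_mul_of_nonneg_left hL2 (by positivity)
      have g4 : L ^ (C + 1) = L ^ C * L := by ring
      rw [g4]
      push_cast
      linarith) hE (fun l j => (Y l j + W - 1 - (r l j).toNat) / W) b1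
    have hcard := card_pibox (fun l j => (Y l j + W - 1 - (r l j).toNat) / W)
    have hSM : 0 < S * M := by positivity
    have e6 : ∀ t ∈ Fintype.piFinset (fun l => box (fun j => (Y l j + W - 1 - (r l j).toNat) / W)),
        Φ (fun l j => a l j + r l j + W * t l j) =
        (psi X d (fun l n => u l n + ev W (t l) n) h m M - S * M) ^ 2 / (S * M) ^ 2 := by
      intro t _
      rw [hΦ]
      simp only
      rw [hsing, if_pos hE]
      unfold rel
      rw [hsing, hval, ← div_pow, sub_div, div_self hSM.ne']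
    have e7 : ∀ t ∈ Fintype.piFinset (fun l => box (fun j => (Y l j + W - 1 - (r l j).toNat) / W)),
        Ψ (fun l j => a l j + r l j + W * t l j) = ε := by
      intro t _
      rw [hΨ]
      simp only
      rw [hsing, if_pos hE]
    rw [sum_congr rfl e6, sum_congr rfl e7, sum_const, nsmul_eq_mul, hcard, ← sum_div, abs_of_nonneg (by positivity),
      div_le_iff₀ (by positivity)]
    refine h5.trans (le_of_eq ?_)
    ring
  · have e6 : ∀ t ∈ Fintype.piFinset (fun l => box (fun j => (Y l j + W - 1 - (r l j).toNat) / W)),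
        Φ (fun l j => a l j + r l j + W * t l j) = 0 := by
      intro t _
      rw [hΦ]
      simp only
      rw [hsing, if_neg hE]
    have e7 : ∀ t ∈ Fintype.piFinset (fun l => box (fun j => (Y l j + W - 1 - (r l j).toNat) / W)),
        Ψ (fun l j => a l j + r l j + W * t l j) = 0 := by
      intro t _
      rw [hΨ]
      simp only
      rw [hsing, if_neg hE]
    rw [sum_congr rfl e6, sum_congr rfl e7]
    simp

/-- long ranges -/
theorem longh (hCT : S_CT) (d g k C C1 : ℕ) (hd : 2 ≤ d) (hg : 1 ≤ g) (hk1 : 1 ≤ k) (hk : k + 1 ≤ d) :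
    ∃ B : ℕ, ∀ ε : ℝ, 0 < ε → ∃ X0 : ℕ, ∀ X : ℕ, X0 ≤ X →
    ∀ m M N : ℕ, Real.log X ^ (g * k + 2) ≤ M → (m : ℝ) + M + Real.log X ^ (C + g * k + 5) ≤ N →
    (N : ℝ) ^ (5 * (d - 1)) * Real.log X ^ B ≤ X →
    ∀ h : Fin k → ℕ, Function.Injective h → (∀ i, (h i : ℝ) ≤ Real.log X ^ C) →
    ∀ F : Fin g → ℕ → ℤ, (∀ l, ∀ p n : ℕ, (p : ℤ) ∣ F l (n + p) - F l n) →
    (∀ l, ∀ n : ℕ, 1 ≤ n → n ≤ N → |(F l n : ℝ)| ≤ X * (n : ℝ) ^ (d - 1) * Real.log X ^ C1) →
    ∀ (a : Fin g → Fin d → ℤ) (Y : Fin g → Fin d → ℕ),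
    (∀ l j, |(a l j : ℝ)| ≤ X ∧ (X : ℝ) / Real.log X ^ C1 ≤ Y l j ∧ (Y l j : ℝ) ≤ X) →
    ∑ c ∈ Admh X F h a Y, (rel X d (fv F c) h m M - 1) ^ 2 ≤ ε * (Admh X F h a Y).card := by
  classical
  obtain ⟨B, hB⟩ := blockh hCT d g k (C + g * k + 3) (C1 + (C + g * k + 5) * (d - 1)) hd hg hk1 hk
  refine ⟨B, fun ε hε => ?_⟩
  obtain ⟨n1, h1⟩ := hB ε hε
  obtain ⟨n2, h2⟩ := ev_L' 4
  refine ⟨max n1 (max n2 1), fun X hX m M N hM hN hNX h hinj hh F hper hFb a Y haY => ?_⟩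
  have a1 := h1 X (le_trans (le_max_left _ _) hX)
  have a2 := h2 X (le_trans (le_trans (le_max_left _ _) (le_max_right _ _)) hX)
  have hX1 : 1 ≤ X := le_trans (le_trans (le_max_right _ _) (le_max_right _ _)) hX
  set L := Real.log X with hL
  have hL1 : 1 ≤ L := by linarith
  have hX0 : (0 : ℝ) < X := by exact_mod_cast hX1
  set b : ℕ := ⌈L ^ (g * k + 2)⌉₊ with hb
  have hb1 : L ^ (g * k + 2) ≤ b := Nat.le_ceil _
  have hLg : 1 ≤ L ^ (g * k + 2) := one_le_pow₀ hL1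
  have hb2 : (b : ℝ) ≤ 2 * L ^ (g * k + 2) := by
    have := (Nat.ceil_lt_add_one (show 0 ≤ L ^ (g * k + 2) by positivity)).le
    linarith
  have hb3 : 1 ≤ b := by
    have : (1 : ℝ) ≤ b := hLg.trans hb1
    exact_mod_cast this
  have hbM : b ≤ M := Nat.ceil_le.2 hM
  -- the relative count as a mean
  have hrel : ∀ (c : Fin g → Fin d → ℤ) (m' M' : ℕ), rel X d (fv F c) h m' M' =
      (∑ i ∈ Ioc m' (m' + M'), (if allp (fv F c) h i then lg X d i ^ (g * k) / singh (fv F c) h (ww X) else 0)) / M' := by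
    intro c m' M'
    unfold rel psi
    rw [← sum_filter, ← sum_div, div_div]
  have key := glue (Admh X F h a Y)
    (fun i c => if allp (fv F c) h i then lg X d i ^ (g * k) / singh (fv F c) h (ww X) else 0) 1 ε m M b hb3 ?_ M m le_rfl
      le_rfl hbM
  · simp only [← hrel] at key
    exact key
  intro m' M' hm' hmM hbM' hM'
  simp only [← hrel]
  have hm'r : (m : ℝ) ≤ m' := by exact_mod_cast hm'
  have hmMr : (m' : ℝ) + M' ≤ m + M := by exact_mod_cast hmM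
  have hM'r : (0 : ℝ) ≤ M' := Nat.cast_nonneg _
  have hLbig : 1 ≤ L ^ (C + g * k + 5) := one_le_pow₀ hL1
  have hLsmall : L ^ (C + g * k + 4) ≤ L ^ (C + g * k + 5) := pow_le_pow_right₀ hL1 (by omega)
  refine a1 m' ?_ M' ?_ ?_ h hinj (fun i => (hh i).trans (pow_le_pow_right₀ hL1 (by omega))) F hper ?_ a Y ?_
  · refine le_trans ?_ hNX
    apply mul_le_mul_of_nonneg_right _ (by positivity)
    apply pow_le_pow_left₀ (by positivity)
    linarith
  · refine le_trans ?_ (hb1.trans (by exact_mod_cast hbM'))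
    exact pow_le_pow_right₀ hL1 (by omega)
  · have h3 : (M' : ℝ) ≤ 2 * b := by exact_mod_cast hM'.le
    calc (M' : ℝ) ≤ 4 * L ^ (g * k + 2) := by linarith
      _ ≤ L * L ^ (g * k + 2) := mul_le_mul_of_nonneg_right a2 (by positivity)
      _ = L ^ (g * k + 3) := by ring
      _ ≤ L ^ (C + g * k + 3) := pow_le_pow_right₀ hL1 (by omega)
  · intro l n hn1 hn2
    have h4 := hFb l n (by omega) (by
      have : (n : ℝ) ≤ N := by
        have e : C + g * k + 3 + 1 = C + g * k + 4 := by omega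
        rw [e] at hn2
        linarith
      exact_mod_cast this)
    refine h4.trans ?_
    have h5 : (n : ℝ) ≤ (m' + 1) * L ^ (C + g * k + 5) := by
      have e : C + g * k + 3 + 1 = C + g * k + 4 := by omega
      rw [e] at hn2
      have hm0 : (0 : ℝ) ≤ m' := Nat.cast_nonneg _
      nlinarith
    have h6 : (n : ℝ) ^ (d - 1) ≤ ((m' : ℝ) + 1) ^ (d - 1) * L ^ ((C + g * k + 5) * (d - 1)) := by
      rw [pow_mul, ← mul_pow]
      exact pow_le_pow_left₀ (Nat.cast_nonneg _) h5 _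
    calc X * (n : ℝ) ^ (d - 1) * L ^ C1 ≤ X * (((m' : ℝ) + 1) ^ (d - 1) * L ^ ((C + g * k + 5) * (d - 1))) * L ^ C1 := by
          gcongr
      _ = _ := by rw [pow_add]; ring
  · intro l j
    refine ⟨(haY l j).1, le_trans ?_ (haY l j).2.1, (haY l j).2.2⟩
    apply div_le_div_of_nonneg_left hX0.le (by positivity)
    exact pow_le_pow_right₀ hL1 (Nat.le_add_right _ _)

/-- almost all systems -/
theorem almosth (hCT : S_CT) (d g k C C1 : ℕ) (hd : 2 ≤ d) (hg : 1 ≤ g) (hk1 : 1 ≤ k) (hk : k + 1 ≤ d) :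
    ∃ B : ℕ, ∀ ε : ℝ, 0 < ε → ∃ X0 : ℕ, ∀ X : ℕ, X0 ≤ X →
    ∀ m M N : ℕ, Real.log X ^ (g * k + 2) ≤ M → (m : ℝ) + M + Real.log X ^ (C + g * k + 5) ≤ N →
    (N : ℝ) ^ (5 * (d - 1)) * Real.log X ^ B ≤ X →
    ∀ h : Fin k → ℕ, Function.Injective h → (∀ i, (h i : ℝ) ≤ Real.log X ^ C) →
    ∀ F : Fin g → ℕ → ℤ, (∀ l, ∀ p n : ℕ, (p : ℤ) ∣ F l (n + p) - F l n) →
    (∀ l, ∀ n : ℕ, 1 ≤ n → n ≤ N → |(F l n : ℝ)| ≤ X * (n : ℝ) ^ (d - 1) * Real.log X ^ C1) →
    ∀ (a : Fin g → Fin d → ℤ) (Y : Fin g → Fin d → ℕ),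
    (∀ l j, |(a l j : ℝ)| ≤ X ∧ (X : ℝ) / Real.log X ^ C1 ≤ Y l j ∧ (Y l j : ℝ) ≤ X) →
    (((Admh X F h a Y).filter (fun c => ε * (singh (fv F c) h (ww X) * M) <
      |psi X d (fv F c) h m M - singh (fv F c) h (ww X) * M|)).card : ℝ) ≤ ε * (Admh X F h a Y).card := by
  classical
  obtain ⟨B, hB⟩ := longh hCT d g k C C1 hd hg hk1 hk
  refine ⟨B, fun ε hε => ?_⟩
  obtain ⟨n1, h1⟩ := hB (ε ^ 3) (by positivity)
  obtain ⟨n2, h2⟩ := ev_L' 1
  refine ⟨max n1 n2, fun X hX m M N hM hN hNX h hinj hh F hper hFb a Y haY => ?_⟩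
  have a1 := h1 X (le_trans (le_max_left _ _) hX) m M N hM hN hNX h hinj hh F hper hFb a Y haY
  have hL1 := h2 X (le_trans (le_max_right _ _) hX)
  have hM0 : (0 : ℝ) < M := lt_of_lt_of_le (by positivity) hM
  set s := Admh X F h a Y with hs
  set bad := s.filter (fun c => ε * (singh (fv F c) h (ww X) * M) <
      |psi X d (fv F c) h m M - singh (fv F c) h (ww X) * M|) with hbad
  have h3 : ε ^ 2 * (bad.card : ℝ) ≤ ε ^ 3 * s.card := by
    refine le_trans ?_ a1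
    calc ε ^ 2 * (bad.card : ℝ) = ∑ c ∈ bad, ε ^ 2 := by rw [sum_const, nsmul_eq_mul, mul_comm]
      _ ≤ ∑ c ∈ bad, (rel X d (fv F c) h m M - 1) ^ 2 := by
          apply sum_le_sum
          intro c hc
          rw [hbad, mem_filter] at hc
          obtain ⟨hc1, hc2⟩ := hc
          have hS : 0 < singh (fv F c) h (ww X) := by
            rw [hs] at hc1
            exact (mem_filter.1 hc1).2
          have hSM : 0 < singh (fv F c) h (ww X) * M := by positivity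
          have e : |psi X d (fv F c) h m M - singh (fv F c) h (ww X) * M| =
              |rel X d (fv F c) h m M - 1| * (singh (fv F c) h (ww X) * M) := by
            rw [← abs_of_pos hSM, ← abs_mul, abs_of_pos hSM]
            congr 1
            unfold rel
            rw [sub_mul, div_mul_cancel₀ _ hSM.ne', one_mul]
          rw [e] at hc2
          have h4 := lt_of_mul_lt_mul_right hc2 hSM.le
          rw [← sq_abs (rel X d (fv F c) h m M - 1)]
          exact pow_le_pow_left₀ hε.le h4.le 2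
      _ ≤ _ := sum_le_sum_of_subset_of_nonneg (filter_subset _ _) (fun _ _ _ => sq_nonneg _)
  have h4 : ε ^ 3 * (s.card : ℝ) = ε ^ 2 * (ε * s.card) := by ring
  rw [h4] at h3
  exact le_of_mul_le_mul_left h3 (by positivity)

end Pool.Agent.Run7.h385.PT
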