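import Pool.Agent.Run7.h385.PT.CT2
import Pool.Agent.Run7.h385.PT.ALLH

/-! # Project PT at the optimal scale: all windows in which many tuples are expected -/

set_option autoImplicit false

namespace Pool.Agent.Run7.h385.PT

open Finset hiding box
open Pool.Agent.H373R2.T7
open Pool.Agent.H807R2.Dav
open Pool.Agent.Run7.h385.PO
open Pool.Agent.Run7.h385.PQ

theorem blockh2 (hCT : S_CT2) (d g k C C1 : ℕ) (hd : 2 ≤ d) (hg : 1 ≤ g) (hk1 : 1 ≤ k) (hk : k + 1 ≤ d) :
    ∃ B : ℕ, ∀ ε : ℝ, 0 < ε → ∃ Lam : ℝ, 0 < Lam ∧ ∃ X0 : ℕ, ∀ X : ℕ, X0 ≤ X →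
    ∀ m : ℕ, ((m : ℝ) + 1) ^ (5 * (d - 1)) * Real.log X ^ B ≤ X → ∀ M : ℕ,
    (M : ℝ) ≤ Real.log X ^ C → ∀ h : Fin k → ℕ, Function.Injective h → (∀ i, (h i : ℝ) ≤ Real.log X ^ C) →
    ∀ F : Fin g → ℕ → ℤ, (∀ l, ∀ p n : ℕ, (p : ℤ) ∣ F l (n + p) - F l n) →
    (∀ l, ∀ n : ℕ, m < n → (n : ℝ) ≤ m + Real.log X ^ (C + 1) →
      |(F l n : ℝ)| ≤ X * ((m : ℝ) + 1) ^ (d - 1) * Real.log X ^ C1) →
    ∀ (a : Fin g → Fin d → ℤ) (Y : Fin g → Fin d → ℕ),
    (∀ l j, |(a l j : ℝ)| ≤ X ∧ (X : ℝ) / Real.log X ^ C1 ≤ Y l j ∧ (Y l j : ℝ) ≤ X) →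
    ∑ c ∈ (Admh X F h a Y).filter (fun c => Lam * Real.log X ^ (g * k) ≤ singh (fv F c) h (ww X) * M),
      (rel X d (fv F c) h m M - 1) ^ 2 ≤ ε * (Admh X F h a Y).card := by
  classical
  obtain ⟨B, hB⟩ := hCT d g k (C + 1 + C1 + (C + 1) * d + 2) hd hg hk1 hk
  refine ⟨B, fun ε hε => ?_⟩
  obtain ⟨Lam, hLam, n1, h1⟩ := hB ε hε
  obtain ⟨n2, h2⟩ := facts2 Run7.h215.PO.t_WSMALL g d (C + 1) C1 hd
  obtain ⟨n3, h3⟩ := ev_L' 2
  refine ⟨Lam, hLam, max n1 (max n2 n3), fun X hX m hm M hM2 h hinj hh F hper hFb a Y haY => ?_⟩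
  have a1 := h1 X (le_trans (le_max_left _ _) hX) m hm M
  obtain ⟨hW1, hL1, h4⟩ := h2 X (le_trans (le_trans (le_max_left _ _) (le_max_right _ _)) hX)
  have hL2 := h3 X (le_trans (le_trans (le_max_right _ _) (le_max_right _ _)) hX)
  have a2 := h4 m F hFb a Y haY
  set L := Real.log X with hL
  set W := WW X with hW
  have hLC : L ^ C ≤ L ^ (C + 1 + C1 + (C + 1) * d + 2) := pow_le_pow_right₀ hL1 (by omega)
  set Φ : (Fin g → Fin d → ℤ) → ℝ := fun c => if 0 < singh (fv F c) h (ww X) then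
    (if Lam * L ^ (g * k) ≤ singh (fv F c) h (ww X) * M then (rel X d (fv F c) h m M - 1) ^ 2 else 0) else 0 with hΦ
  set Ψ : (Fin g → Fin d → ℤ) → ℝ := fun c => if 0 < singh (fv F c) h (ww X) then ε else 0 with hΨ
  have e1 : ∑ c ∈ (Admh X F h a Y).filter (fun c => Lam * L ^ (g * k) ≤ singh (fv F c) h (ww X) * M),
      (rel X d (fv F c) h m M - 1) ^ 2 = ∑ c ∈ cbox a Y, Φ c := by
    unfold Admh
    rw [hΦ, ← sum_filter, ← sum_filter]
  have e2 : ε * ((Admh X F h a Y).card : ℝ) = ∑ c ∈ cbox a Y, Ψ c := by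
    unfold Admh
    rw [hΨ, ← sum_filter, sum_const, nsmul_eq_mul, mul_comm]
  rw [e1, e2]
  refine (le_abs_self _).trans ?_
  apply glob Run7.h416.PO.t_SPLIT g d W hW1 a Y Φ Ψ
  intro r hr
  obtain ⟨b1, b2⟩ := a2 r hr
  set c0 : Fin g → Fin d → ℤ := fun l j => a l j + r l j with hc0
  set u : Fin g → ℕ → ℤ := fv F c0 with hu
  have hval : ∀ t : Fin g → Fin d → ℤ, fv F (fun l j => a l j + r l j + W * t l j) = fun l n => u l n + ev W (t l) n :=
    fun t => fv_split F a r t W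
  have hsing : ∀ t : Fin g → Fin d → ℤ, singh (fv F (fun l j => a l j + r l j + W * t l j)) h (ww X) =
      singh u h (ww X) := by
    intro t
    rw [hval]
    apply singh_congr
    intro p hp l n
    simp only [add_sub_cancel_left]
    unfold ev
    exact (dvd_WW hp).mul_right _
  set S := singh u h (ww X) with hS
  by_cases hE : 0 < S
  · by_cases hE2 : Lam * L ^ (g * k) ≤ S * M
    swap
    · have e6 : ∀ t ∈ Fintype.piFinset (fun l => box (fun j => (Y l j + W - 1 - (r l j).toNat) / W)),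
          Φ (fun l j => a l j + r l j + W * t l j) = 0 := by
        intro t _
        rw [hΦ]
        simp only
        rw [hsing, if_pos hE, if_neg hE2]
      rw [sum_congr rfl e6, sum_const_zero, abs_zero]
      apply sum_nonneg
      intro t _
      rw [hΨ]
      simp only
      split_ifs
      · exact hε.le
      · exact le_rfl
    have h5 := a1 (hM2.trans hLC) h hinj (fun i => (hh i).trans hLC) u (per_fv F c0 hper) (by
      intro l i n hn1 hn2
      apply b2 l (n + h i) (by omega)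
      have g1 := hh i
      have g2 : (n : ℝ) ≤ m + M := by exact_mod_cast hn2
      have g3 : L ^ C * 2 ≤ L ^ C * L := mul_le_mul_of_nonneg_left hL2 (by positivity)
      have g4 : L ^ (C + 1) = L ^ C * L := by ring
      rw [g4]
      push_cast
      linarith) hE hE2 (fun l j => (Y l j + W - 1 - (r l j).toNat) / W) b1
    have hcard := card_pibox (fun l j => (Y l j + W - 1 - (r l j).toNat) / W)
    have hSM : 0 < S * M := lt_of_lt_of_le (by positivity) hE2
    have e6 : ∀ t ∈ Fintype.piFinset (fun l => box (fun j => (Y l j + W - 1 - (r l j).toNat) / W)),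
        Φ (fun l j => a l j + r l j + W * t l j) =
        (psi X d (fun l n => u l n + ev W (t l) n) h m M - S * M) ^ 2 / (S * M) ^ 2 := by
      intro t _
      rw [hΦ]
      simp only
      rw [hsing, if_pos hE, if_pos hE2]
      unfold rel
      rw [hsing, hval, ← div_pow, sub_div, div_self hSM.ne']
    have e7 : ∀ t ∈ Fintype.piFinset (fun l => box (fun j => (Y l j + W - 1 - (r l j).toNat) / W)),
        Ψ (fun l j => a l j + r l j + W * t l j) = ε := by
      intro t _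
      rw [hΨ]
      simp only
      rw [hsing, if_pos hE]
    rw [sum_congr rfl e6, sum_congr rfl e7, sum_const, nsmul_eq_mul, hcard, ← sum_div, abs_of_nonneg (by positivity),
      div_le_iff₀ (by positivity)]
    refine h5.trans (le_of_eq ?_)
    ring
  · have e6 : ∀ t ∈ Fintype.piFinset (fun l => box (fun j => (Y l j + W - 1 - (r l j).toNat) / W)),
        Φ (fun l j => a l j + r l j + W * t l j) = 0 := by
      intro t _
      rw [hΦ]
      simp only
      rw [hsing, if_neg hE]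
    have e7 : ∀ t ∈ Fintype.piFinset (fun l => box (fun j => (Y l j + W - 1 - (r l j).toNat) / W)),
        Ψ (fun l j => a l j + r l j + W * t l j) = 0 := by
      intro t _
      rw [hΨ]
      simp only
      rw [hsing, if_neg hE]
    rw [sum_congr rfl e6, sum_congr rfl e7]
    simp

/-- almost all systems, in all windows in which at least `Lam` tuples are expected -/
theorem almosth2 (hCT : S_CT) (hCT2 : S_CT2) (d g k C C1 : ℕ) (hd : 2 ≤ d) (hg : 1 ≤ g) (hk1 : 1 ≤ k) (hk : k + 1 ≤ d) :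
    ∃ B : ℕ, ∀ ε : ℝ, 0 < ε → ∃ Lam : ℝ, 0 < Lam ∧ ∃ X0 : ℕ, ∀ X : ℕ, X0 ≤ X →
    ∀ m M N : ℕ, (m : ℝ) + M + Real.log X ^ (C + g * k + 5) ≤ N →
    (N : ℝ) ^ (5 * (d - 1)) * Real.log X ^ B ≤ X →
    ∀ h : Fin k → ℕ, Function.Injective h → (∀ i, (h i : ℝ) ≤ Real.log X ^ C) →
    ∀ F : Fin g → ℕ → ℤ, (∀ l, ∀ p n : ℕ, (p : ℤ) ∣ F l (n + p) - F l n) →
    (∀ l, ∀ n : ℕ, 1 ≤ n → n ≤ N → |(F l n : ℝ)| ≤ X * (n : ℝ) ^ (d - 1) * Real.log X ^ C1) →
    ∀ (a : Fin g → Fin d → ℤ) (Y : Fin g → Fin d → ℕ),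
    (∀ l j, |(a l j : ℝ)| ≤ X ∧ (X : ℝ) / Real.log X ^ C1 ≤ Y l j ∧ (Y l j : ℝ) ≤ X) →
    (((Admh X F h a Y).filter (fun c => Lam * lg X d m ^ (g * k) ≤ singh (fv F c) h (ww X) * M ∧
      ε * (singh (fv F c) h (ww X) * M) < |psi X d (fv F c) h m M - singh (fv F c) h (ww X) * M|)).card : ℝ) ≤
      ε * (Admh X F h a Y).card := by
  classical
  obtain ⟨B1, hB1⟩ := almosth hCT d g k C C1 hd hg hk1 hk
  obtain ⟨B2, hB2⟩ := blockh2 hCT2 d g k (C + g * k + 3) (C1 + (C + g * k + 5) * (d - 1)) hd hg hk1 hk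
  refine ⟨B1 + B2, fun ε hε => ?_⟩
  obtain ⟨n1, h1⟩ := hB1 ε hε
  obtain ⟨Lam, hLam, n2, h2⟩ := hB2 (ε ^ 3) (by positivity)
  obtain ⟨n3, h3⟩ := ev_L' 4
  refine ⟨Lam, hLam, max n1 (max n2 (max n3 1)), fun X hX m M N hN hNX h hinj hh F hper hFb a Y haY => ?_⟩
  have a3 := h3 X (le_trans (le_trans (le_trans (le_max_left _ _) (le_max_right _ _)) (le_max_right _ _)) hX)
  have hX1 : 1 ≤ X := le_trans (le_trans (le_trans (le_max_right _ _) (le_max_right _ _)) (le_max_right _ _)) hX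
  set L := Real.log X with hL
  have hL1 : 1 ≤ L := by linarith
  have hX0 : (0 : ℝ) < X := by exact_mod_cast hX1
  have hLB1 : 1 ≤ L ^ B1 := one_le_pow₀ hL1
  have hLB2 : 1 ≤ L ^ B2 := one_le_pow₀ hL1
  have hNX1 : (N : ℝ) ^ (5 * (d - 1)) * L ^ B1 ≤ X := by
    refine le_trans ?_ hNX
    rw [pow_add]
    apply mul_le_mul_of_nonneg_left _ (by positivity)
    exact le_mul_of_one_le_right (by positivity) hLB2
  have hNX2 : (N : ℝ) ^ (5 * (d - 1)) * L ^ B2 ≤ X := by
    refine le_trans ?_ hNX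
    rw [pow_add]
    apply mul_le_mul_of_nonneg_left _ (by positivity)
    exact le_mul_of_one_le_left (by positivity) hLB1
  rcases le_or_gt (L ^ (g * k + 2)) (M : ℝ) with hM | hM
  · refine le_trans ?_ (h1 X (le_trans (le_max_left _ _) hX) m M N hM hN hNX1 h hinj hh F hper hFb a Y haY)
    apply Nat.cast_le.2
    apply card_le_card
    intro c hc
    rw [mem_filter] at hc ⊢
    exact ⟨hc.1, hc.2.2⟩
  have a2 := h2 X (le_trans (le_trans (le_max_left _ _) (le_max_right _ _)) hX)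
  have hMr : (0 : ℝ) ≤ M := Nat.cast_nonneg _
  have hmr : (0 : ℝ) ≤ m := Nat.cast_nonneg _
  have hLbig : 1 ≤ L ^ (C + g * k + 5) := one_le_pow₀ hL1
  have hLsmall : L ^ (C + g * k + 4) ≤ L ^ (C + g * k + 5) := pow_le_pow_right₀ hL1 (by omega)
  have h5 := a2 m (by
      refine le_trans ?_ hNX2
      apply mul_le_mul_of_nonneg_right _ (by positivity)
      apply pow_le_pow_left₀ (by positivity)
      linarith) M (hM.le.trans (pow_le_pow_right₀ hL1 (by omega))) h hinj
    (fun i => (hh i).trans (pow_le_pow_right₀ hL1 (by omega))) F hper (by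
      intro l n hn1 hn2
      have h4 := hFb l n (by omega) (by
        have : (n : ℝ) ≤ N := by
          have e : C + g * k + 3 + 1 = C + g * k + 4 := by omega
          rw [e] at hn2
          linarith
        exact_mod_cast this)
      refine h4.trans ?_
      have h5 : (n : ℝ) ≤ (m + 1) * L ^ (C + g * k + 5) := by
        have e : C + g * k + 3 + 1 = C + g * k + 4 := by omega
        rw [e] at hn2
        nlinarith
      have h6 : (n : ℝ) ^ (d - 1) ≤ ((m : ℝ) + 1) ^ (d - 1) * L ^ ((C + g * k + 5) * (d - 1)) := by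
        rw [pow_mul, ← mul_pow]
        exact pow_le_pow_left₀ (Nat.cast_nonneg _) h5 _
      calc X * (n : ℝ) ^ (d - 1) * L ^ C1 ≤ X * (((m : ℝ) + 1) ^ (d - 1) * L ^ ((C + g * k + 5) * (d - 1))) * L ^ C1 := by
            gcongr
        _ = _ := by rw [pow_add]; ring) a Y (by
      intro l j
      refine ⟨(haY l j).1, le_trans ?_ (haY l j).2.1, (haY l j).2.2⟩
      apply div_le_div_of_nonneg_left hX0.le (by positivity)
      exact pow_le_pow_right₀ hL1 (Nat.le_add_right _ _))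
  set s := Admh X F h a Y with hs
  set bad := s.filter (fun c => Lam * lg X d m ^ (g * k) ≤ singh (fv F c) h (ww X) * M ∧
      ε * (singh (fv F c) h (ww X) * M) < |psi X d (fv F c) h m M - singh (fv F c) h (ww X) * M|) with hbad
  have hlgL : Lam * L ^ (g * k) ≤ Lam * lg X d m ^ (g * k) := by
    apply mul_le_mul_of_nonneg_left _ hLam.le
    exact pow_le_pow_left₀ (by linarith) (lg_ge X d m hX1) _
  have hsub : bad ⊆ s.filter (fun c => Lam * L ^ (g * k) ≤ singh (fv F c) h (ww X) * M) := by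
    intro c hc
    rw [hbad, mem_filter] at hc
    rw [mem_filter]
    exact ⟨hc.1, hlgL.trans hc.2.1⟩
  have h3 : ε ^ 2 * (bad.card : ℝ) ≤ ε ^ 3 * s.card := by
    refine le_trans ?_ h5
    calc ε ^ 2 * (bad.card : ℝ) = ∑ c ∈ bad, ε ^ 2 := by rw [sum_const, nsmul_eq_mul, mul_comm]
      _ ≤ ∑ c ∈ bad, (rel X d (fv F c) h m M - 1) ^ 2 := by
          apply sum_le_sum
          intro c hc
          have hc0 := hsub hc
          rw [mem_filter] at hc0
          rw [hbad, mem_filter] at hc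
          obtain ⟨hc1, _, hc2⟩ := hc
          have hSM : 0 < singh (fv F c) h (ww X) * M := lt_of_lt_of_le (by positivity) hc0.2
          have e : |psi X d (fv F c) h m M - singh (fv F c) h (ww X) * M| =
              |rel X d (fv F c) h m M - 1| * (singh (fv F c) h (ww X) * M) := by
            rw [← abs_of_pos hSM, ← abs_mul, abs_of_pos hSM]
            congr 1
            unfold rel
            rw [sub_mul, div_mul_cancel₀ _ hSM.ne', one_mul]
          rw [e] at hc2
          have h4 := lt_of_mul_lt_mul_right hc2 hSM.le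
          rw [← sq_abs (rel X d (fv F c) h m M - 1)]
          exact pow_le_pow_left₀ hε.le h4.le 2
      _ ≤ _ := sum_le_sum_of_subset_of_nonneg hsub (fun _ _ _ => sq_nonneg _)
  have h4 : ε ^ 3 * (s.card : ℝ) = ε ^ 2 * (ε * s.card) := by ring
  rw [h4] at h3
  exact le_of_mul_le_mul_left h3 (by positivity)

end Pool.Agent.Run7.h385.PT
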