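import Pool.Agent.Run7.h385.PT.Fin
import Pool.Agent.Run7.h544.PT.CT
import Pool.Agent.Run7.h215.PO.TCOUNT
import Pool.Agent.Run7.h215.PO.TINY2

/-! # Project PT: assembly -/

set_option autoImplicit false

namespace Pool.Agent.Run7.h385.PT

theorem a_CT : S_CT :=
  Run7.h544.PT.t_CT PQ.a_JM Run7.h215.PO.t_TINY2 Run7.h215.PO.t_TCOUNT Run7.h215.PO.t_WSMALL

end Pool.Agent.Run7.h385.PT
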