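import Pool.Agent.Run7.h385.PT.CTA

/-! # Project PT, piece CT2: the second moment in one class modulo `W`, at the optimal scale -/

set_option autoImplicit false

namespace Pool.Agent.Run7.h385.PT

open Finset hiding box
open Pool.Agent.H373R2.T7
open Pool.Agent.H807R2.Dav
open Pool.Agent.Run7.h385.PO
open Pool.Agent.Run7.h385.PQ

/-- as `S_CT`, with the condition that the expected number of tuples is large -/
def S_CT2 : Prop :=
  ∀ (d g k C : ℕ), 2 ≤ d → 1 ≤ g → 1 ≤ k → k + 1 ≤ d → ∃ B : ℕ, ∀ ε : ℝ, 0 < ε → ∃ Lam : ℝ, 0 < Lam ∧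
    ∃ X0 : ℕ, ∀ X : ℕ, X0 ≤ X →
    ∀ m : ℕ, ((m : ℝ) + 1) ^ (5 * (d - 1)) * Real.log X ^ B ≤ X → ∀ M : ℕ,
    (M : ℝ) ≤ Real.log X ^ C → ∀ h : Fin k → ℕ, Function.Injective h → (∀ i, (h i : ℝ) ≤ Real.log X ^ C) →
    ∀ u : Fin g → ℕ → ℤ, (∀ l, ∀ p n : ℕ, (p : ℤ) ∣ u l (n + p) - u l n) →
    (∀ l i, ∀ n : ℕ, m < n → n ≤ m + M →
      |(u l (n + h i) : ℝ)| ≤ X * ((m : ℝ) + 1) ^ (d - 1) * Real.log X ^ C) → 0 < singh u h (ww X) →
    Lam * Real.log X ^ (g * k) ≤ singh u h (ww X) * M →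
    ∀ Y : Fin g → Fin d → ℕ, (∀ l j, (X : ℝ) / Real.log X ^ C ≤ Y l j ∧ (Y l j : ℝ) ≤ X) →
    ∑ t ∈ Fintype.piFinset (fun l => box (Y l)),
      (psi X d (fun l n => u l n + ev (WW X) (t l) n) h m M - singh u h (ww X) * M) ^ 2 ≤
      ε * (singh u h (ww X) * M) ^ 2 * ∏ l, ∏ j, (Y l j : ℝ)

/-- the last computation -/
lemma fin_calc (η A Gv T P Ti M k2 s1 s2 : ℝ) (hη0 : 0 < η) (hη1 : η ≤ 1) (hT : 0 < T) (hP : 0 ≤ P)
    (hG1 : (1 - η) * T ≤ Gv) (hG2 : Gv ≤ (1 + η) * T) (hk : k2 * A * Gv ≤ η * T ^ 2)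
    (hTi : A ^ 2 * M ^ 2 * Ti ≤ η * T ^ 2 * P)
    (h2 : s2 ≤ (1 + η) * ((1 + η) * P * Gv ^ 2 + (1 + η) * P * (k2 * A * Gv) + A ^ 2 * M ^ 2 * Ti))
    (h1 : (1 - η) * P * Gv ≤ s1) : s2 - 2 * T * s1 + T ^ 2 * P ≤ 50 * η * T ^ 2 * P := by
  have hTP : 0 ≤ T ^ 2 * P := by positivity
  have hGv0 : 0 ≤ Gv := le_trans (mul_nonneg (by linarith) hT.le) hG1
  have a1 : Gv ^ 2 ≤ (1 + 3 * η) * T ^ 2 := by
    calc Gv ^ 2 ≤ ((1 + η) * T) ^ 2 := pow_le_pow_left₀ hGv0 hG2 2
      _ = (1 + 2 * η + η * η) * T ^ 2 := by ring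
      _ ≤ (1 + 3 * η) * T ^ 2 := by
          apply mul_le_mul_of_nonneg_right _ (by positivity)
          nlinarith
  have b1 : (1 + η) * P * Gv ^ 2 ≤ (1 + η) * P * ((1 + 3 * η) * T ^ 2) :=
    mul_le_mul_of_nonneg_left a1 (by positivity)
  have b2 : (1 + η) * P * (k2 * A * Gv) ≤ (1 + η) * P * (η * T ^ 2) :=
    mul_le_mul_of_nonneg_left hk (by positivity)
  have b3 : (1 + η) * P * Gv ^ 2 + (1 + η) * P * (k2 * A * Gv) + A ^ 2 * M ^ 2 * Ti ≤ (1 + 10 * η) * (T ^ 2 * P) := by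
    have e1 : (1 + η) * P * ((1 + 3 * η) * T ^ 2) = (1 + 4 * η + 3 * (η * η)) * (T ^ 2 * P) := by ring
    have e2 : (1 + η) * P * (η * T ^ 2) = (η + η * η) * (T ^ 2 * P) := by ring
    have e3 : η * η * (T ^ 2 * P) ≤ η * (T ^ 2 * P) := by
      apply mul_le_mul_of_nonneg_right _ hTP
      nlinarith
    nlinarith
  have b4 : s2 ≤ (1 + 21 * η) * (T ^ 2 * P) := by
    refine h2.trans ?_
    refine (mul_le_mul_of_nonneg_left b3 (by linarith)).trans ?_
    have e3 : η * η * (T ^ 2 * P) ≤ η * (T ^ 2 * P) := by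
      apply mul_le_mul_of_nonneg_right _ hTP
      nlinarith
    nlinarith
  have b5 : (1 - 2 * η) * (T * P) ≤ s1 := by
    refine le_trans ?_ h1
    have e4 : (1 - η) * P * ((1 - η) * T) ≤ (1 - η) * P * Gv :=
      mul_le_mul_of_nonneg_left hG1 (mul_nonneg (by linarith) hP)
    have e5 : (1 - η) * P * ((1 - η) * T) = (1 - 2 * η) * (T * P) + η * η * (T * P) := by ring
    have e6 : 0 ≤ η * η * (T * P) := by positivity
    linarith
  have b6 := mul_le_mul_of_nonneg_left b5 (show 0 ≤ 2 * T by linarith)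
  have e7 : 2 * T * ((1 - 2 * η) * (T * P)) = 2 * (1 - 2 * η) * (T ^ 2 * P) := by ring
  have e8 : 0 ≤ η * (T ^ 2 * P) := by positivity
  nlinarith

set_option maxHeartbeats 4000000 in
theorem t_CT2 : S_CT2 := by
  classical
  intro d g k C hd hg hk1 hk
  obtain ⟨B1, hB1⟩ := a_JM d g k k (C + 1) hd (by omega)
  obtain ⟨B2, hB2⟩ := a_JM d g k 0 (C + 1) hd (by omega)
  refine ⟨B1 + B2, fun ε hε => ?_⟩
  set η : ℝ := min 1 (ε / 50) with hη
  have hη0 : 0 < η := lt_min one_pos (by positivity)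
  have hη1 : η ≤ 1 := min_le_left _ _
  have hηε : 50 * η ≤ ε := by
    have : η ≤ ε / 50 := min_le_right _ _
    linarith
  have hq1 : 1 ≤ g * k := Nat.mul_pos (by omega) (by omega)
  set q := g * k with hq
  set η0 : ℝ := η / 2 ^ (2 * q) with hη0d
  have hη0p : 0 < η0 := by positivity
  have h2q : (1 : ℝ) ≤ 2 ^ (2 * q) := one_le_pow₀ (by norm_num)
  have hη01 : η0 ≤ η := by
    rw [hη0d, div_le_iff₀ (by positivity)]
    nlinarith
  obtain ⟨n1, h1⟩ := hB1 η hη0
  obtain ⟨n2, h2⟩ := hB2 η hη0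
  obtain ⟨n3, h3⟩ := Run7.h215.PO.t_WSMALL.2
  obtain ⟨n4, h4⟩ := ev_L' 2
  set Lam : ℝ := 1 + 2 * (k : ℝ) ^ 2 * 2 ^ q / η with hLam
  have hLam1 : 1 ≤ Lam := by
    have : 0 ≤ 2 * (k : ℝ) ^ 2 * 2 ^ q / η := by positivity
    linarith
  have hsk : 2 * (k : ℝ) ^ 2 * 2 ^ q ≤ η * Lam := by
    have e : η * (2 * (k : ℝ) ^ 2 * 2 ^ q / η) = 2 * (k : ℝ) ^ 2 * 2 ^ q := by field_simp
    rw [hLam, mul_add, e]
    linarith
  obtain ⟨n5, h5⟩ := ev_log' (2 * q + 4 * C + 1) (3 * 4 ^ q * k * g / η)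
  have hlim : Filter.Tendsto (fun N : ℕ => Real.log (N : ℝ)) Filter.atTop Filter.atTop :=
    Real.tendsto_log_atTop.comp (tendsto_natCast_atTop_atTop (R := ℝ))
  have hev2 : ∀ᶠ N : ℕ in Filter.atTop, ((d : ℝ) * (C + 1) + 1) * Real.log (Real.log N) ≤ η0 * Real.log N := by
    have h5 := (Real.isLittleO_log_id_atTop).bound (show (0 : ℝ) < η0 / (d * (C + 1) + 1) by positivity)
    have h6 := hlim.eventually h5
    filter_upwards [h6, hlim.eventually_ge_atTop 1] with N h7 h8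
    rw [Real.norm_of_nonneg (Real.log_nonneg h8), id, Real.norm_of_nonneg (by linarith), div_mul_eq_mul_div,
      le_div_iff₀ (by positivity)] at h7
    linarith
  have hev : ∀ᶠ N : ℕ in Filter.atTop, Real.log (Real.log N) ≤ η * √(Real.log N) := by
    have h5 := (isLittleO_log_rpow_atTop (show (0 : ℝ) < 1 / 2 by norm_num)).bound (show (0 : ℝ) < η by positivity)
    have h6 := hlim.eventually h5
    filter_upwards [h6, hlim.eventually_ge_atTop 1] with N h7 h8
    rw [Real.norm_of_nonneg (Real.log_nonneg h8), Real.norm_of_nonneg (by positivity), ← Real.sqrt_eq_rpow] at h7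
    exact h7
  obtain ⟨n6, h6⟩ := Filter.eventually_atTop.1 hev2
  obtain ⟨n7, h7⟩ := Filter.eventually_atTop.1 hev
  refine ⟨Lam, by linarith, max (max (max n1 n2) (max n3 n4)) (max (max n5 n6) (max n7 2)),
    fun X hX m hm M hM2 h hinj hh u hper hub hS hTbig Y hY => ?_⟩
  have hX7 : n7 ≤ X := le_trans (le_trans (le_trans (le_max_left _ _) (le_max_right _ _)) (le_max_right _ _)) hX
  have hX1 : n1 ≤ X := le_trans (le_trans (le_trans (le_max_left _ _) (le_max_left _ _)) (le_max_left _ _)) hX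
  have hX2 : n2 ≤ X := le_trans (le_trans (le_trans (le_max_right _ _) (le_max_left _ _)) (le_max_left _ _)) hX
  have hX3 : n3 ≤ X := le_trans (le_trans (le_trans (le_max_left _ _) (le_max_right _ _)) (le_max_left _ _)) hX
  have hX4 : n4 ≤ X := le_trans (le_trans (le_trans (le_max_right _ _) (le_max_right _ _)) (le_max_left _ _)) hX
  have hX5 : n5 ≤ X := le_trans (le_trans (le_trans (le_max_left _ _) (le_max_left _ _)) (le_max_right _ _)) hX
  have hX6' : n6 ≤ X := le_trans (le_trans (le_trans (le_max_right _ _) (le_max_left _ _)) (le_max_right _ _)) hX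
  have hX6 : 2 ≤ X := le_trans (le_trans (le_trans (le_max_right _ _) (le_max_right _ _)) (le_max_right _ _)) hX
  have a1 := h1 X hX1
  have a2 := h2 X hX2
  obtain ⟨hWsq, hW1, hVinv⟩ := h3 X hX3
  have a4 := h4 X hX4
  have a5 := h5 X hX5
  have a6 := h6 X hX6'
  have a7 := h7 X hX7
  clear h1 h2 h3 h4 h5 h6 h7 hB1 hB2 hev2 hev
  set L := Real.log X with hL
  have hL2 : 2 ≤ L := a4
  have hL0 : 0 < L := by linarith
  have hL1 : 1 ≤ L := by linarith
  have hXr : (2 : ℝ) ≤ X := by exact_mod_cast hX6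
  have hX0 : (0 : ℝ) < X := by linarith
  have hsL : √L * √L = L := Real.mul_self_sqrt hL0.le
  have hsL1 : 1 ≤ √L := by rw [Real.one_le_sqrt]; exact hL1
  set w := ww X with hw
  set W := WW X with hW
  have hWr1 : (1 : ℝ) ≤ W := by exact_mod_cast hW1
  have hWL : (W : ℝ) ≤ √L := by
    rw [← Real.sqrt_sq (show (0 : ℝ) ≤ W by positivity)]
    exact Real.sqrt_le_sqrt hWsq
  have hVpos := Vz_pos w
  set V := Vz w with hV
  have hm0 : (0 : ℝ) ≤ m := Nat.cast_nonneg _
  have hLB1 : 1 ≤ L ^ B1 := one_le_pow₀ hL1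
  have hLB2 : 1 ≤ L ^ B2 := one_le_pow₀ hL1
  have hQ0 : 0 < ((m : ℝ) + 1) ^ (5 * (d - 1)) := by positivity
  have hm1 : ((m : ℝ) + 1) ^ (5 * (d - 1)) * L ^ B1 ≤ X := by
    refine le_trans ?_ hm
    rw [pow_add]
    apply mul_le_mul_of_nonneg_left _ hQ0.le
    exact le_mul_of_one_le_right (by positivity) hLB2
  have hm2 : ((m : ℝ) + 1) ^ (5 * (d - 1)) * L ^ B2 ≤ X := by
    refine le_trans ?_ hm
    rw [pow_add]
    apply mul_le_mul_of_nonneg_left _ hQ0.le
    exact le_mul_of_one_le_left (by positivity) hLB1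
  have hm3 : ((m : ℝ) + 1) ^ (d - 1) ≤ X := by
    have h7 : ((m : ℝ) + 1) ^ (d - 1) ≤ ((m : ℝ) + 1) ^ (5 * (d - 1)) :=
      pow_le_pow_right₀ (by linarith) (by omega)
    have h8 : ((m : ℝ) + 1) ^ (5 * (d - 1)) ≤ ((m : ℝ) + 1) ^ (5 * (d - 1)) * L ^ B1 :=
      le_mul_of_one_le_right hQ0.le hLB1
    linarith
  have b1 := a1 m hm1
  have b2 := a2 m hm2
  clear a1 a2
  -- the logarithms
  set lm := lg X d m with hlm
  set lM := lg X d (m + M) with hlM
  have hM0 : (0 : ℝ) ≤ M := Nat.cast_nonneg _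
  have hLC1 : 1 ≤ L ^ C := one_le_pow₀ hL1
  have hlmL : L ≤ lm := lg_ge X d m (by omega)
  have hlm0 : 0 < lm := by linarith
  have hlm2 : lm ≤ 2 * L := by
    rw [hlm]
    unfold lg
    rw [Real.log_mul hX0.ne' (by positivity)]
    have h8 := Real.log_le_log (by positivity) hm3
    linarith
  have hlogL : 0 ≤ Real.log L := Real.log_nonneg hL1
  have hlM3 : lM ≤ lm * (1 + η0) := by
    have h7 : lM ≤ lm + d * ((C + 1) * Real.log L) := by
      rw [hlm, hlM]
      unfold lg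
      rw [Real.log_mul hX0.ne' (by positivity), Real.log_mul hX0.ne' (by positivity), Real.log_pow, Real.log_pow]
      have h8 : ((m + M : ℕ) : ℝ) + 1 ≤ (m + 1) * L ^ (C + 1) := by
        rw [pow_succ]
        have h10 : L ^ C * 2 ≤ L ^ C * L := mul_le_mul_of_nonneg_left hL2 (by positivity)
        have h11 : (m : ℝ) * 1 ≤ m * (L ^ C * L) := by
          apply mul_le_mul_of_nonneg_left _ hm0
          linarith
        push_cast
        rw [add_mul, one_mul]
        linarith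
      have h9 := Real.log_le_log (by positivity) h8
      rw [Real.log_mul (by positivity) (by positivity), Real.log_pow] at h9
      have h10 : ((d - 1 : ℕ) : ℝ) ≤ d := by exact_mod_cast Nat.sub_le d 1
      have h11 : (0 : ℝ) ≤ ((d - 1 : ℕ) : ℝ) := Nat.cast_nonneg _
      have h13 : ((d - 1 : ℕ) : ℝ) * Real.log (((m + M : ℕ) : ℝ) + 1) ≤
          ((d - 1 : ℕ) : ℝ) * (Real.log ((m : ℝ) + 1) + ((C + 1 : ℕ) : ℝ) * Real.log L) :=
        mul_le_mul_of_nonneg_left h9 h11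
      push_cast at h13
      have h14 : ((d - 1 : ℕ) : ℝ) * (((C : ℝ) + 1) * Real.log L) ≤ d * (((C : ℝ) + 1) * Real.log L) := by
        apply mul_le_mul_of_nonneg_right h10
        positivity
      push_cast
      linarith
    have h8 : (d : ℝ) * ((C + 1) * Real.log L) ≤ η0 * lm := by
      calc (d : ℝ) * ((C + 1) * Real.log L) = ((d : ℝ) * (C + 1)) * Real.log L := by ring
        _ ≤ η0 * L := by linarith
        _ ≤ η0 * lm := mul_le_mul_of_nonneg_left hlmL hη0p.le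
    linarith
  have hlM1 : lm ≤ lM := by
    rw [hlm, hlM]
    unfold lg
    apply Real.log_le_log (by positivity)
    push_cast
    gcongr
    linarith
  have hlM0 : 0 < lM := by linarith
  have hlMq : (lM ^ q) ^ 2 ≤ (1 + η) * (lm ^ q) ^ 2 := by
    rw [← pow_mul, ← pow_mul, mul_comm q 2]
    have h7 : (1 + η0) ^ (2 * q) ≤ 1 + η := by
      refine (pow_lin η0 hη0p.le (hη01.trans hη1) (2 * q)).trans (le_of_eq ?_)
      rw [hη0d]
      field_simp
    calc lM ^ (2 * q) ≤ (lm * (1 + η0)) ^ (2 * q) := pow_le_pow_left₀ hlM0.le hlM3 _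
      _ = (1 + η0) ^ (2 * q) * lm ^ (2 * q) := by rw [mul_pow]; ring
      _ ≤ (1 + η) * lm ^ (2 * q) := mul_le_mul_of_nonneg_right h7 (by positivity)
  -- the constants
  set R := rho2 X d m with hR
  have hRdef : R = V⁻¹ / lm := rfl
  have hR0 : 0 < R := by rw [hRdef]; positivity
  set r := R ^ q with hr
  have hr0 : 0 < r := by positivity
  set A := lm ^ q with hA
  have hA0 : 0 < A := by positivity
  have hAr : A * r = V⁻¹ ^ q := by
    rw [hA, hr, ← mul_pow, hRdef]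
    congr 1
    field_simp
  set S := singh u h w with hSd
  set T := S * M with hT
  have hLq1 : 1 ≤ L ^ q := one_le_pow₀ hL1
  have hT1' : L ^ q ≤ T := by
    refine le_trans ?_ hTbig
    calc L ^ q = 1 * L ^ q := (one_mul _).symm
      _ ≤ Lam * L ^ q := mul_le_mul_of_nonneg_right hLam1 (by positivity)
  have hT1 : 1 ≤ T := hLq1.trans hT1'
  have hT0 : 0 < T := by linarith
  have hVL : V⁻¹ ≤ η * √L := hVinv.trans a7
  have hVq : V⁻¹ ^ q ≤ η * √L ^ q := by
    calc V⁻¹ ^ q ≤ (η * √L) ^ q := pow_le_pow_left₀ (by positivity) hVL q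
      _ = η ^ q * √L ^ q := mul_pow _ _ _
      _ ≤ η ^ 1 * √L ^ q := by
          apply mul_le_mul_of_nonneg_right _ (by positivity)
          exact pow_le_pow_of_le_one hη0.le hη1 hq1
      _ = η * √L ^ q := by rw [pow_one]
  have hsq : √L ^ q * √L ≤ L ^ q := by
    calc √L ^ q * √L = √L ^ (q + 1) := (pow_succ _ _).symm
      _ ≤ √L ^ (2 * q) := pow_le_pow_right₀ hsL1 (by omega)
      _ = L ^ q := by rw [pow_mul, sq, hsL]
  -- the good arguments
  set G := Gd w u h m M with hG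
  have hGc := card_Gd w u h m M hper
  rw [← hG, ← hSd, ← hV] at hGc
  have hWdef : ((∏ p ∈ pz w, p : ℕ) : ℝ) = (W : ℝ) := rfl
  rw [hWdef] at hGc
  set Gv : ℝ := V⁻¹ ^ q * G.card with hGv
  have hGvT : |Gv - T| ≤ η * T := by
    have e : Gv - T = V⁻¹ ^ q * ((G.card : ℝ) - M * (S * V ^ q)) := by
      rw [hGv, hT, mul_sub]
      congr 1
      rw [inv_pow]
      field_simp
    rw [e, abs_mul, abs_of_pos (show 0 < V⁻¹ ^ q by positivity)]
    calc V⁻¹ ^ q * |(G.card : ℝ) - M * (S * V ^ q)| ≤ (η * √L ^ q) * √L :=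
          mul_le_mul hVq (hGc.trans hWL) (abs_nonneg _) (by positivity)
      _ = η * (√L ^ q * √L) := by ring
      _ ≤ η * L ^ q := mul_le_mul_of_nonneg_left hsq hη0.le
      _ ≤ η * T := mul_le_mul_of_nonneg_left hT1' hη0.le
  rw [abs_le] at hGvT
  have hGv1 : (1 - η) * T ≤ Gv := by linarith [hGvT.1]
  have hGv2 : Gv ≤ (1 + η) * T := by linarith [hGvT.2]
  set P : ℝ := ∏ l, ∏ j, (Y l j : ℝ) with hP
  have hP0 : 0 ≤ P := by positivity
  set bx := Fintype.piFinset (fun l => box (Y l)) with hbx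
  set x : ℕ → (Fin g → Fin d → ℤ) → ℝ :=
    fun n t => if allp (fun l n => u l n + ev W (t l) n) h n then 1 else 0 with hx
  have hx0 : ∀ n t, 0 ≤ x n t := by
    intro n t
    rw [hx]
    simp only
    split_ifs <;> norm_num
  have hx1 : ∀ n t, x n t ≤ 1 := by
    intro n t
    rw [hx]
    simp only
    split_ifs <;> norm_num
  have hGm : ∀ n ∈ G, (m < n ∧ n ≤ m + M) ∧ ∀ l i, ∀ p ∈ pz w, ¬ (p : ℤ) ∣ u l (n + h i) := by
    intro n hn
    rw [hG] at hn
    unfold Gd at hn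
    rw [mem_filter, mem_Ioc] at hn
    exact hn
  have hLCs : L ^ C + L ^ C ≤ L ^ (C + 1) := by
    have h10 : L ^ C * 2 ≤ L ^ C * L := mul_le_mul_of_nonneg_left hL2 (by positivity)
    rw [pow_succ]
    linarith
  have hTm : ∀ n ∈ G, ∀ y ∈ Tn h n, m < y ∧ (y : ℝ) ≤ m + L ^ (C + 1) := by
    intro n hn y hy
    obtain ⟨⟨g1, g2⟩, _⟩ := hGm n hn
    obtain ⟨i, rfl⟩ := (mem_Tn h n y).1 hy
    refine ⟨by omega, ?_⟩
    have g3 := hh i
    have g4 : (n : ℝ) ≤ m + M := by exact_mod_cast g2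
    push_cast
    linarith
  have hTu : ∀ n ∈ G, ∀ y ∈ Tn h n, ∀ l, |(u l y : ℝ)| ≤ X * ((m : ℝ) + 1) ^ (d - 1) * L ^ (C + 1) ∧
      IsCoprime (u l y) (W : ℤ) := by
    intro n hn y hy l
    obtain ⟨⟨g1, g2⟩, g3⟩ := hGm n hn
    obtain ⟨i, rfl⟩ := (mem_Tn h n y).1 hy
    refine ⟨(hub l i n g1 g2).trans ?_, cop_of _ (g3 l i)⟩
    apply mul_le_mul_of_nonneg_left _ (by positivity)
    exact pow_le_pow_right₀ hL1 (by omega)
  have hY' : ∀ l j, (X : ℝ) / L ^ (C + 1) ≤ Y l j ∧ (Y l j : ℝ) ≤ X := by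
    intro l j
    refine ⟨le_trans ?_ (hY l j).1, (hY l j).2⟩
    apply div_le_div_of_nonneg_left hX0.le (by positivity)
    exact pow_le_pow_right₀ hL1 (by omega)
  have hkf : (0 : ℝ) < (k.factorial : ℝ) := by exact_mod_cast Nat.factorial_pos k
  -- first moments
  have hm1' : ∀ n ∈ G, |∑ t ∈ bx, x n t - P * r| ≤ η * (P * r) := by
    intro n hn
    have h7 := b2 (Tn h n) ∅ (disjoint_empty_right _) (hTm n hn) (by simp) u
      (fun l y hy => by
        rcases hy with hy | hy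
        · exact hTu n hn y hy l
        · simp at hy) Y hY'
    rw [card_Tn h hinj, Nat.descFactorial_self] at h7
    simp only [pc_Tn W u h hinj, Nat.descFactorial_zero, Nat.cast_one, mul_one, add_zero] at h7
    rw [← mul_sum] at h7
    have e1 : (k.factorial : ℝ) * ∑ t ∈ bx, x n t - P * (k.factorial : ℝ) * R ^ (g * k) =
        (k.factorial : ℝ) * (∑ t ∈ bx, x n t - P * r) := by rw [hr]; ring
    have e2 : η * (P * (k.factorial : ℝ) * R ^ (g * k)) = (k.factorial : ℝ) * (η * (P * r)) := by rw [hr]; ring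
    have h8 : |(k.factorial : ℝ) * ∑ t ∈ bx, x n t - P * (k.factorial : ℝ) * R ^ (g * k)| ≤
        η * (P * (k.factorial : ℝ) * R ^ (g * k)) := h7
    rw [e1, e2, abs_mul, abs_of_pos hkf] at h8
    exact le_of_mul_le_mul_left h8 hkf
  have hm2' : ∀ n ∈ G, ∀ n' ∈ G, ¬ ¬ Disjoint (Tn h n) (Tn h n') → ∑ t ∈ bx, x n t * x n' t ≤ (1 + η) * P * r ^ 2 := by
    intro n hn n' hn' hdis
    rw [not_not] at hdis
    have h7 := b1 (Tn h n) (Tn h n') hdis (hTm n hn) (hTm n' hn') u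
      (fun l y hy => by
        rcases hy with hy | hy
        · exact hTu n hn y hy l
        · exact hTu n' hn' y hy l) Y hY'
    rw [card_Tn h hinj, card_Tn h hinj, Nat.descFactorial_self] at h7
    simp only [pc_Tn W u h hinj] at h7
    have e0 : ∀ t ∈ bx, (k.factorial : ℝ) * (if allp (fun l n => u l n + ev W (t l) n) h n then 1 else 0) *
        ((k.factorial : ℝ) * (if allp (fun l n => u l n + ev W (t l) n) h n' then 1 else 0)) =
        ((k.factorial : ℝ) * (k.factorial : ℝ)) * (x n t * x n' t) := by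
      intro t _
      rw [hx]
      simp only
      ring
    rw [sum_congr rfl e0, ← mul_sum] at h7
    have e1 : (k.factorial : ℝ) * (k.factorial : ℝ) * ∑ t ∈ bx, x n t * x n' t -
        P * ((k.factorial : ℝ) * (k.factorial : ℝ)) * R ^ (g * (k + k)) =
        ((k.factorial : ℝ) * (k.factorial : ℝ)) * (∑ t ∈ bx, x n t * x n' t - P * r ^ 2) := by
      have : R ^ (g * (k + k)) = r ^ 2 := by
        rw [hr, ← pow_mul]
        congr 1
        rw [hq]
        ring
      rw [this]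
      ring
    have e2 : η * (P * ((k.factorial : ℝ) * (k.factorial : ℝ)) * R ^ (g * (k + k))) =
        ((k.factorial : ℝ) * (k.factorial : ℝ)) * (η * (P * r ^ 2)) := by
      have : R ^ (g * (k + k)) = r ^ 2 := by
        rw [hr, ← pow_mul]
        congr 1
        rw [hq]
        ring
      rw [this]
      ring
    rw [e1, e2, abs_mul, abs_of_pos (mul_pos hkf hkf)] at h7
    have h8 := le_of_mul_le_mul_left h7 (mul_pos hkf hkf)
    have h9 := (abs_le.1 h8).2
    linarith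
  -- the second moment of the good count
  have hsm := sq_sum_le bx G x hx0 hx1 (fun n n' => ¬ Disjoint (Tn h n) (Tn h n')) ((1 + η) * P * r)
    ((1 + η) * P * r ^ 2) ((k : ℝ) ^ 2) (by positivity)
    (fun n hn => by
      have := (abs_le.1 (hm1' n hn)).2
      linarith) hm2' (by positivity) (fun n hn => card_near h n G)
  have hfst : (G.card : ℝ) * ((1 - η) * (P * r)) ≤ ∑ t ∈ bx, ∑ n ∈ G, x n t := by
    rw [sum_comm]
    calc (G.card : ℝ) * ((1 - η) * (P * r)) = ∑ n ∈ G, (1 - η) * (P * r) := by rw [sum_const, nsmul_eq_mul]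
      _ ≤ _ := by
          apply sum_le_sum
          intro n hn
          have := (abs_le.1 (hm1' n hn)).1
          linarith
  -- the tiny values
  set AA : Finset ℕ := ((Ioc m (m + M)) ×ˢ (univ : Finset (Fin k))).image (fun y => y.1 + h y.2) with hAA
  have hAAc : (AA.card : ℝ) ≤ L ^ C * k := by
    have h7 : AA.card ≤ M * k := by
      rw [hAA]
      refine card_image_le.trans ?_
      rw [card_product, Nat.card_Ioc, card_univ, Fintype.card_fin]
      have : m + M - m = M := by omega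
      rw [this]
    calc (AA.card : ℝ) ≤ ((M * k : ℕ) : ℝ) := by exact_mod_cast h7
      _ = (M : ℝ) * k := by push_cast; ring
      _ ≤ L ^ C * k := mul_le_mul_of_nonneg_right hM2 (Nat.cast_nonneg _)
  set Ym : ℕ := ⌈(X : ℝ) / L ^ C⌉₊ with hYm
  have hYm1 : 1 ≤ Ym := by
    rw [hYm, Nat.one_le_ceil_iff]; positivity
  have hYmY : ∀ l j, Ym ≤ Y l j := by
    intro l j
    rw [hYm]
    exact Nat.ceil_le.2 (hY l j).1
  have hYmr : (X : ℝ) / L ^ C ≤ Ym := Nat.le_ceil _
  have htiny := Run7.h215.PO.t_TINY2 g d W (by omega) hW1 Y u AA w Ym hYm1 hYmY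
  set Ti := bx.filter (fun t : Fin g → Fin d → ℤ => ∃ n ∈ AA, ∃ l, |u l n + ev W (t l) n| ≤ w) with hTi
  rw [← hP] at htiny
  have hA2 : A ≤ (2 * L) ^ q := by
    rw [hA]
    exact pow_le_pow_left₀ hlm0.le hlm2 q
  have hTiS : A ^ 2 * (M : ℝ) ^ 2 * Ti.card ≤ η * T ^ 2 * P := by
    have hwL : (w : ℝ) ≤ L := ww_le X hL1
    have h6 : A ^ 2 * (M : ℝ) ^ 2 * (AA.card * g * (2 * w + 1) / Ym) ≤ η := by
      have h7 : A ^ 2 * (M : ℝ) ^ 2 * (AA.card * g * (2 * w + 1) / Ym) ≤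
          ((2 * L) ^ q) ^ 2 * (L ^ C) ^ 2 * ((L ^ C * k) * g * (2 * L + L) / (X / L ^ C)) := by
        gcongr
      have h8 : ((2 * L) ^ q) ^ 2 * (L ^ C) ^ 2 * ((L ^ C * k) * g * (2 * L + L) / (X / L ^ C)) =
          (3 * 4 ^ q * k * g * L ^ (2 * q + 4 * C + 1)) / X := by
        have e4 : (4 : ℝ) ^ q = 2 ^ q * 2 ^ q := by rw [← mul_pow]; norm_num
        rw [div_div_eq_mul_div, ← mul_div_assoc, e4]
        congr 1
        rw [mul_pow, show 2 * q + 4 * C + 1 = q + q + (C + C + C + C) + 1 by ring, pow_succ, pow_add, pow_add, pow_add,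
          pow_add, pow_add]
        ring
      rw [h8] at h7
      refine h7.trans ?_
      rw [div_le_iff₀ hX0]
      have h9 : √(X : ℝ) ≤ X := by
        rw [Real.sqrt_le_left (by positivity)]
        exact le_self_pow₀ (by linarith) (by norm_num)
      have h10 := a5.trans h9
      rw [div_mul_eq_mul_div, div_le_iff₀ hη0] at h10
      linarith
    calc A ^ 2 * (M : ℝ) ^ 2 * Ti.card ≤ A ^ 2 * (M : ℝ) ^ 2 * ((AA.card * g * (2 * w + 1) / Ym) * P) :=
          mul_le_mul_of_nonneg_left htiny (by positivity)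
      _ = (A ^ 2 * (M : ℝ) ^ 2 * (AA.card * g * (2 * w + 1) / Ym)) * P := by ring
      _ ≤ η * P := mul_le_mul_of_nonneg_right h6 hP0
      _ ≤ η * T ^ 2 * P := by
          have h7 : 1 ≤ T ^ 2 := one_le_pow₀ hT1
          have h8 : 0 ≤ η * P := by positivity
          calc η * P = η * P * 1 := by ring
            _ ≤ η * P * T ^ 2 := mul_le_mul_of_nonneg_left h7 h8
            _ = _ := by ring
  -- the counts
  set Nc : (Fin g → Fin d → ℤ) → ℝ :=
    fun t => (((Ioc m (m + M)).filter (allp (fun l n => u l n + ev W (t l) n) h)).card : ℝ) with hNc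
  have hxs : ∀ t, ∑ n ∈ G, x n t = ((G.filter (allp (fun l n => u l n + ev W (t l) n) h)).card : ℝ) := by
    intro t
    rw [hx]
    simp only
    rw [sum_boole]
  have hGsub : G ⊆ Ioc m (m + M) := by
    intro n hn
    rw [mem_Ioc]
    exact (hGm n hn).1
  have hlow : ∀ t, ∑ n ∈ G, x n t ≤ Nc t := by
    intro t
    rw [hxs t, hNc]
    simp only
    exact_mod_cast card_le_card (filter_subset_filter _ hGsub)
  have hup : ∀ t ∈ bx, Nc t ^ 2 ≤ (∑ n ∈ G, x n t) ^ 2 + if t ∈ Ti then (M : ℝ) ^ 2 else 0 := by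
    intro t ht
    by_cases htT : t ∈ Ti
    · rw [if_pos htT]
      have h7 : Nc t ≤ M := by
        rw [hNc]
        simp only
        have h8 : ((Ioc m (m + M)).filter (allp (fun l n => u l n + ev W (t l) n) h)).card ≤ M := by
          refine (card_filter_le _ _).trans ?_
          rw [Nat.card_Ioc]
          omega
        exact_mod_cast h8
      have h8 : 0 ≤ Nc t := Nat.cast_nonneg _
      have h9 := pow_le_pow_left₀ h8 h7 2
      have h10 : 0 ≤ (∑ n ∈ G, x n t) ^ 2 := sq_nonneg _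
      linarith
    · rw [if_neg htT, add_zero, hxs t]
      have e : (Ioc m (m + M)).filter (allp (fun l n => u l n + ev W (t l) n) h) =
          G.filter (allp (fun l n => u l n + ev W (t l) n) h) := by
        ext n
        rw [mem_filter, mem_filter]
        constructor
        · rintro ⟨h8, h9⟩
          refine ⟨?_, h9⟩
          rw [hG]
          unfold Gd
          rw [mem_filter]
          refine ⟨h8, ?_⟩
          intro l i p hp hd'
          apply htT
          rw [hTi, mem_filter]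
          refine ⟨ht, n + h i, ?_, l, ?_⟩
          · rw [hAA, mem_image]
            exact ⟨(n, i), mem_product.2 ⟨h8, mem_univ _⟩, rfl⟩
          · have h10 : (p : ℤ) ∣ u l (n + h i) + ev W (t l) (n + h i) := by
              apply dvd_add hd'
              unfold ev
              exact (dvd_WW hp).mul_right _
            have h11 : p ∣ (u l (n + h i) + ev W (t l) (n + h i)).natAbs := Int.natCast_dvd.1 h10
            have h12 : p = (u l (n + h i) + ev W (t l) (n + h i)).natAbs :=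
              (Nat.prime_dvd_prime_iff_eq (mem_pz.1 hp).2 (h9 l i)).1 h11
            rw [Int.abs_eq_natAbs, ← h12]
            exact_mod_cast (mem_pz.1 hp).1
        · rintro ⟨h8, h9⟩
          exact ⟨hGsub h8, h9⟩
      rw [hNc]
      simp only
      rw [e]
  -- `psi` and the counts
  set ps : (Fin g → Fin d → ℤ) → ℝ := fun t => psi X d (fun l n => u l n + ev W (t l) n) h m M with hps
  have hpsl : ∀ t, A * Nc t ≤ ps t := by
    intro t
    rw [hps, hNc, hA]
    simp only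
    unfold psi
    rw [mul_comm (lm ^ q), ← nsmul_eq_mul, ← sum_const]
    apply sum_le_sum
    intro n hn
    rw [mem_filter, mem_Ioc] at hn
    apply pow_le_pow_left₀ hlm0.le
    rw [hlm]
    unfold lg
    apply Real.log_le_log (by positivity)
    have : (m : ℝ) ≤ n := by exact_mod_cast hn.1.1.le
    gcongr
  have hpsu : ∀ t, ps t ≤ lM ^ q * Nc t := by
    intro t
    rw [hps, hNc]
    simp only
    unfold psi
    rw [mul_comm (lM ^ q), ← nsmul_eq_mul, ← sum_const]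
    apply sum_le_sum
    intro n hn
    rw [mem_filter, mem_Ioc] at hn
    apply pow_le_pow_left₀
    · have := lg_ge X d n (by omega)
      linarith
    · rw [hlM]
      unfold lg
      apply Real.log_le_log (by positivity)
      have : (n : ℝ) ≤ ((m + M : ℕ) : ℝ) := by exact_mod_cast hn.1.2
      gcongr
  have hNc0 : ∀ t, 0 ≤ Nc t := fun t => Nat.cast_nonneg _
  have hps0 : ∀ t, 0 ≤ ps t := fun t => le_trans (mul_nonneg hA0.le (hNc0 t)) (hpsl t)
  -- the two sums
  have hs1 : (1 - η) * P * Gv ≤ ∑ t ∈ bx, ps t := by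
    calc (1 - η) * P * Gv = A * ((G.card : ℝ) * ((1 - η) * (P * r))) := by
          rw [hGv, ← hAr]; ring
      _ ≤ A * ∑ t ∈ bx, ∑ n ∈ G, x n t := mul_le_mul_of_nonneg_left hfst hA0.le
      _ = ∑ t ∈ bx, A * ∑ n ∈ G, x n t := by rw [mul_sum]
      _ ≤ ∑ t ∈ bx, ps t := by
          apply sum_le_sum
          intro t _
          exact (mul_le_mul_of_nonneg_left (hlow t) hA0.le).trans (hpsl t)
  have hs2 : ∑ t ∈ bx, ps t ^ 2 ≤
      (1 + η) * ((1 + η) * P * Gv ^ 2 + (1 + η) * P * ((k : ℝ) ^ 2 * A * Gv) + A ^ 2 * (M : ℝ) ^ 2 * Ti.card) := by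
    have h7 : ∑ t ∈ bx, Nc t ^ 2 ≤ (G.card : ℝ) ^ 2 * ((1 + η) * P * r ^ 2) +
        G.card * ((k : ℝ) ^ 2 * ((1 + η) * P * r)) + (M : ℝ) ^ 2 * Ti.card := by
      refine (sum_le_sum hup).trans ?_
      rw [sum_add_distrib]
      have e : ∑ t ∈ bx, (if t ∈ Ti then (M : ℝ) ^ 2 else 0) = (M : ℝ) ^ 2 * Ti.card := by
        rw [sum_ite_mem, sum_const, nsmul_eq_mul]
        have h7 : bx ∩ Ti = Ti := by
          rw [hTi]; exact inter_eq_right.2 (filter_subset _ _)
        rw [h7, mul_comm]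
      rw [e]
      linarith
    have h8 : ∀ t ∈ bx, ps t ^ 2 ≤ (lM ^ q) ^ 2 * Nc t ^ 2 := by
      intro t _
      rw [← mul_pow]
      exact pow_le_pow_left₀ (hps0 t) (hpsu t) 2
    have h9 : 0 ≤ ∑ t ∈ bx, Nc t ^ 2 := sum_nonneg (fun t _ => sq_nonneg _)
    calc ∑ t ∈ bx, ps t ^ 2 ≤ ∑ t ∈ bx, (lM ^ q) ^ 2 * Nc t ^ 2 := sum_le_sum h8
      _ = (lM ^ q) ^ 2 * ∑ t ∈ bx, Nc t ^ 2 := by rw [mul_sum]
      _ ≤ ((1 + η) * A ^ 2) * ∑ t ∈ bx, Nc t ^ 2 := mul_le_mul_of_nonneg_right hlMq h9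
      _ ≤ ((1 + η) * A ^ 2) * ((G.card : ℝ) ^ 2 * ((1 + η) * P * r ^ 2) +
        G.card * ((k : ℝ) ^ 2 * ((1 + η) * P * r)) + (M : ℝ) ^ 2 * Ti.card) :=
          mul_le_mul_of_nonneg_left h7 (by positivity)
      _ = _ := by rw [hGv, ← hAr]; ring
  have hkA : (k : ℝ) ^ 2 * A * Gv ≤ η * T ^ 2 := by
    calc (k : ℝ) ^ 2 * A * Gv ≤ (k : ℝ) ^ 2 * (2 * L) ^ q * ((1 + η) * T) := by
          apply mul_le_mul (mul_le_mul_of_nonneg_left hA2 (by positivity)) hGv2 (by positivity) (by positivity)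
      _ ≤ (k : ℝ) ^ 2 * (2 * L) ^ q * (2 * T) := by
          apply mul_le_mul_of_nonneg_left _ (by positivity)
          apply mul_le_mul_of_nonneg_right _ hT0.le
          linarith
      _ = (2 * (k : ℝ) ^ 2 * 2 ^ q) * L ^ q * T := by rw [mul_pow]; ring
      _ ≤ (η * Lam) * L ^ q * T := by
          apply mul_le_mul_of_nonneg_right _ hT0.le
          exact mul_le_mul_of_nonneg_right hsk (by positivity)
      _ = η * (Lam * L ^ q) * T := by ring
      _ ≤ η * T * T := by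
          apply mul_le_mul_of_nonneg_right _ hT0.le
          exact mul_le_mul_of_nonneg_left hTbig hη0.le
      _ = η * T ^ 2 := by ring
  have hfin := fin_calc η A Gv T P Ti.card M ((k : ℝ) ^ 2) (∑ t ∈ bx, ps t) (∑ t ∈ bx, ps t ^ 2) hη0 hη1 hT0 hP0
    hGv1 hGv2 hkA hTiS hs2 hs1
  have hbc : (bx.card : ℝ) = P := card_pibox Y
  have hexp : ∑ t ∈ bx, (ps t - T) ^ 2 = ∑ t ∈ bx, ps t ^ 2 - 2 * T * ∑ t ∈ bx, ps t + T ^ 2 * P := by
    rw [← hbc, mul_sum, ← sum_sub_distrib, mul_comm (T ^ 2), ← nsmul_eq_mul, ← sum_const, ← sum_add_distrib]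
    apply sum_congr rfl
    intro t _
    ring
  have hgoal : ∑ t ∈ bx, (ps t - T) ^ 2 ≤ ε * T ^ 2 * P := by
    rw [hexp]
    refine hfin.trans ?_
    have h7 : 0 ≤ T ^ 2 * P := by positivity
    have e1 : 50 * η * T ^ 2 * P = (50 * η) * (T ^ 2 * P) := by ring
    have e2 : ε * T ^ 2 * P = ε * (T ^ 2 * P) := by ring
    rw [e1, e2]
    exact mul_le_mul_of_nonneg_right hηε h7
  exact hgoal

end Pool.Agent.Run7.h385.PT
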