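import Pool.Agent.Run7.h385.PT.Stm

/-! # Project PT, piece CT: auxiliary lemmas -/

set_option autoImplicit false

namespace Pool.Agent.Run7.h385.PT

open Finset hiding box
open Pool.Agent.H373R2.T7
open Pool.Agent.H807R2.Dav
open Pool.Agent.Run7.h385.PO
open Pool.Agent.Run7.h385.PQ

/-- the system of all the `u l (x + h i)` as a system indexed by `Fin (g * k)` -/
def uu {g k : ℕ} (u : Fin g → ℕ → ℤ) (h : Fin k → ℕ) : Fin (g * k) → ℕ → ℤ :=
  fun q n => u (finProdFinEquiv.symm q).1 (n + h (finProdFinEquiv.symm q).2)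

lemma exists_uu {g k : ℕ} (P : Fin g → Fin k → Prop) :
    (∃ q : Fin (g * k), P (finProdFinEquiv.symm q).1 (finProdFinEquiv.symm q).2) ↔ ∃ l i, P l i := by
  constructor
  · rintro ⟨q, hq⟩
    exact ⟨_, _, hq⟩
  · rintro ⟨l, i, hli⟩
    refine ⟨finProdFinEquiv (l, i), ?_⟩
    rw [Equiv.symm_apply_apply]
    exact hli

lemma forall_uu {g k : ℕ} (P : Fin g → Fin k → Prop) :
    (∀ q : Fin (g * k), P (finProdFinEquiv.symm q).1 (finProdFinEquiv.symm q).2) ↔ ∀ l i, P l i := by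
  constructor
  · intro h l i
    have := h (finProdFinEquiv (l, i))
    rw [Equiv.symm_apply_apply] at this
    exact this
  · intro h q
    exact h _ _

lemma omega_uu {g k : ℕ} (u : Fin g → ℕ → ℤ) (h : Fin k → ℕ) (p : ℕ) : omega (uu u h) p = omh u h p := by
  unfold omega omh
  congr 1
  apply filter_congr
  intro n _
  exact exists_uu (fun l i => (p : ℤ) ∣ u l (n + h i))

lemma sing_uu {g k : ℕ} (u : Fin g → ℕ → ℤ) (h : Fin k → ℕ) (w : ℕ) : sing (uu u h) w = singh u h w := by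
  unfold sing singh
  apply prod_congr rfl
  intro p _
  rw [omega_uu]

/-- the arguments at which no prime up to `w` divides a value -/
noncomputable def Gd {g k : ℕ} (w : ℕ) (u : Fin g → ℕ → ℤ) (h : Fin k → ℕ) (m M : ℕ) : Finset ℕ :=
  open Classical in (Ioc m (m + M)).filter (fun n => ∀ l i, ∀ p ∈ pz w, ¬ (p : ℤ) ∣ u l (n + h i))

lemma card_Gd {g k : ℕ} (w : ℕ) (u : Fin g → ℕ → ℤ) (h : Fin k → ℕ) (m M : ℕ)
    (hper : ∀ l, ∀ p n : ℕ, (p : ℤ) ∣ u l (n + p) - u l n) :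
    |((Gd w u h m M).card : ℝ) - M * (singh u h w * Vz w ^ (g * k))| ≤ ((∏ p ∈ pz w, p : ℕ) : ℝ) := by
  classical
  have h1 := Run7.h215.PO.t_TCOUNT (g * k) (uu u h) w (by
    intro q p _ n
    unfold uu
    have := hper (finProdFinEquiv.symm q).1 p (n + h (finProdFinEquiv.symm q).2)
    have e : n + h (finProdFinEquiv.symm q).2 + p = n + p + h (finProdFinEquiv.symm q).2 := by ring
    rwa [e] at this) m M
  rw [sing_mul, sing_uu] at h1
  have e : (Gd w u h m M) = (Ioc m (m + M)).filter (fun n => ∀ q, ∀ p ∈ pz w, ¬ (p : ℤ) ∣ uu u h q n) := by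
    unfold Gd
    ext n
    rw [mem_filter, mem_filter]
    apply and_congr_right
    intro _
    exact (forall_uu (fun l i => ∀ p ∈ pz w, ¬ (p : ℤ) ∣ u l (n + h i))).symm
  rw [e]
  exact h1

lemma sq_sum_le {ι : Type*} (bx : Finset ι) (G : Finset ℕ) (x : ℕ → ι → ℝ) (hx0 : ∀ n t, 0 ≤ x n t)
    (hx1 : ∀ n t, x n t ≤ 1) (D : ℕ → ℕ → Prop) [∀ n, DecidablePred (D n)] (c1 c2 K : ℝ) (hc1 : 0 ≤ c1)
    (h1 : ∀ n ∈ G, ∑ t ∈ bx, x n t ≤ c1)
    (h2 : ∀ n ∈ G, ∀ n' ∈ G, ¬ D n n' → ∑ t ∈ bx, x n t * x n' t ≤ c2) (hc2 : 0 ≤ c2)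
    (hK : ∀ n ∈ G, ((G.filter (D n)).card : ℝ) ≤ K) :
    ∑ t ∈ bx, (∑ n ∈ G, x n t) ^ 2 ≤ (G.card : ℝ) ^ 2 * c2 + G.card * (K * c1) := by
  have e : ∑ t ∈ bx, (∑ n ∈ G, x n t) ^ 2 = ∑ n ∈ G, ∑ n' ∈ G, ∑ t ∈ bx, x n t * x n' t := by
    simp_rw [sq, sum_mul_sum]
    rw [sum_comm]
    apply sum_congr rfl
    intro n _
    rw [sum_comm]
  rw [e]
  have h3 : ∀ n ∈ G, ∑ n' ∈ G, ∑ t ∈ bx, x n t * x n' t ≤ G.card * c2 + K * c1 := by
    intro n hn
    have h4 : ∀ n' ∈ G, ∑ t ∈ bx, x n t * x n' t ≤ c2 + if D n n' then c1 else 0 := by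
      intro n' hn'
      by_cases hD : D n n'
      · rw [if_pos hD]
        have : ∑ t ∈ bx, x n t * x n' t ≤ ∑ t ∈ bx, x n t := by
          apply sum_le_sum
          intro t _
          exact mul_le_of_le_one_right (hx0 n t) (hx1 n' t)
        linarith [h1 n hn]
      · rw [if_neg hD, add_zero]
        exact h2 n hn n' hn' hD
    refine (sum_le_sum h4).trans ?_
    rw [sum_add_distrib, sum_const, nsmul_eq_mul, ← sum_filter, sum_const, nsmul_eq_mul]
    have := mul_le_mul_of_nonneg_right (hK n hn) hc1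
    linarith
  refine (sum_le_sum h3).trans (le_of_eq ?_)
  rw [sum_const, nsmul_eq_mul]
  ring

/-- the points `n + h i` -/
def Tn {k : ℕ} (h : Fin k → ℕ) (n : ℕ) : Finset ℕ := univ.image (fun i => n + h i)

lemma mem_Tn {k : ℕ} (h : Fin k → ℕ) (n x : ℕ) : x ∈ Tn h n ↔ ∃ i, n + h i = x := by
  unfold Tn
  rw [mem_image]
  simp

lemma card_Tn {k : ℕ} (h : Fin k → ℕ) (hinj : Function.Injective h) (n : ℕ) : (Tn h n).card = k := by
  unfold Tn
  rw [card_image_of_injective, card_univ, Fintype.card_fin]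
  intro i j hij
  apply hinj
  exact Nat.add_left_cancel hij

lemma pc_Tn {g d k : ℕ} (W : ℕ) (u : Fin g → ℕ → ℤ) (h : Fin k → ℕ) (hinj : Function.Injective h)
    (t : Fin g → Fin d → ℤ) (n : ℕ) :
    (((pc W u t (Tn h n)).descFactorial k : ℕ) : ℝ) =
      (k.factorial : ℝ) * (if allp (fun l n => u l n + ev W (t l) n) h n then 1 else 0) := by
  by_cases hp : allp (fun l n => u l n + ev W (t l) n) h n
  · rw [if_pos hp, mul_one]
    have : pc W u t (Tn h n) = k := by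
      unfold pc
      rw [filter_true_of_mem, card_Tn h hinj]
      intro x hx l
      obtain ⟨i, rfl⟩ := (mem_Tn h n x).1 hx
      exact hp l i
    rw [this, Nat.descFactorial_self]
  · rw [if_neg hp, mul_zero]
    have h1 : pc W u t (Tn h n) < k := by
      have h2 : (Tn h n).filter (fun n => ∀ l, (u l n + ev W (t l) n).natAbs.Prime) ⊂ Tn h n := by
        rw [filter_ssubset]
        unfold allp at hp
        push Not at hp
        obtain ⟨l, i, hli⟩ := hp
        refine ⟨n + h i, (mem_Tn h n _).2 ⟨i, rfl⟩, ?_⟩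
        intro hcon
        exact hli (hcon l)
      have h3 := card_lt_card h2
      rw [card_Tn h hinj] at h3
      exact h3
    rw [Nat.descFactorial_of_lt h1, Nat.cast_zero]

lemma card_near {k : ℕ} (h : Fin k → ℕ) (n : ℕ) (G : Finset ℕ) [DecidablePred (fun n' => ¬ Disjoint (Tn h n) (Tn h n'))] :
    ((G.filter (fun n' => ¬ Disjoint (Tn h n) (Tn h n'))).card : ℝ) ≤ (k : ℝ) ^ 2 := by
  have h1 : G.filter (fun n' => ¬ Disjoint (Tn h n) (Tn h n')) ⊆
      (univ : Finset (Fin k × Fin k)).image (fun q => n + h q.1 - h q.2) := by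
    intro n' hn'
    rw [mem_filter] at hn'
    rw [not_disjoint_iff] at hn'
    obtain ⟨_, x, hx1, hx2⟩ := hn'
    obtain ⟨i, hi⟩ := (mem_Tn h n x).1 hx1
    obtain ⟨j, hj⟩ := (mem_Tn h n' x).1 hx2
    rw [mem_image]
    refine ⟨(i, j), mem_univ _, ?_⟩
    simp only
    omega
  have h2 := (card_le_card h1).trans card_image_le
  rw [card_univ, Fintype.card_prod, Fintype.card_fin] at h2
  have h3 : ((G.filter (fun n' => ¬ Disjoint (Tn h n) (Tn h n'))).card : ℝ) ≤ ((k * k : ℕ) : ℝ) := by exact_mod_cast h2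
  refine h3.trans (le_of_eq ?_)
  push_cast
  ring

end Pool.Agent.Run7.h385.PT
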