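import Pool.Agent.Run7.h385.PT.ALLH
import Pool.Agent.Run7.h385.PT.ADMH
import Pool.Agent.Run7.h385.PQ.Quad

/-! # Project PT: polynomial language -/

set_option autoImplicit false

namespace Pool.Agent.Run7.h385.PT.Fin3

open Finset hiding box
open scoped Polynomial
open Pool.Agent.H373R2.T7
open Pool.Agent.Run7.h385
open Pool.Agent.Run7.h385.PO.Fin1 (poly primes w box vals vals_poly per_vals primes_eq w_eq)
open Pool.Agent.Run7.h385.PQ.Fin2 (Sizes2)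

/-- the number of the residues `n` modulo `p` such that `p` divides a value at one of the `n + h_i` -/
def omegaP {g k : ℕ} (f : Fin g → ℤ[X]) (h : Fin k → ℕ) (p : ℕ) : ℕ :=
  ((range p).filter (fun n : ℕ => ∃ l i, (p : ℤ) ∣ (f l).eval ((n + h i : ℕ) : ℤ))).card

noncomputable def constP {g k : ℕ} (f : Fin g → ℤ[X]) (h : Fin k → ℕ) (w : ℕ) : ℝ :=
  ∏ p ∈ primes w, (1 - (omegaP f h p : ℝ) / p) / (1 - 1 / (p : ℝ)) ^ (g * k)

noncomputable def psiP {g k : ℕ} (X d : ℕ) (f : Fin g → ℤ[X]) (h : Fin k → ℕ) (m M : ℕ) : ℝ :=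
  ∑ n ∈ (Ioc m (m + M)).filter (fun n : ℕ => ∀ l i, ((f l).eval ((n + h i : ℕ) : ℤ)).natAbs.Prime),
    Real.log (X * ((n : ℝ) + 1) ^ (d - 1)) ^ (g * k)

noncomputable def admP {g d k : ℕ} (X : ℕ) (F : Fin g → ℤ[X]) (h : Fin k → ℕ) (a : Fin g → Fin d → ℤ)
    (Y : Fin g → Fin d → ℕ) : Finset (Fin g → Fin d → ℤ) := (box a Y).filter (fun c => 0 < constP (poly F c) h (w X))

lemma constP_eq {g k : ℕ} (f : Fin g → ℤ[X]) (h : Fin k → ℕ) (w : ℕ) : constP f h w = singh (vals f) h w := by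
  unfold constP singh
  rw [primes_eq]
  rfl

lemma psiP_eq {g k : ℕ} (X d : ℕ) (f : Fin g → ℤ[X]) (h : Fin k → ℕ) (m M : ℕ) :
    psiP X d f h m M = psi X d (vals f) h m M := by
  unfold psiP psi
  apply sum_congr _ (fun n _ => rfl)
  apply filter_congr
  intro n _
  rfl

lemma admP_eq {g d k : ℕ} (X : ℕ) (F : Fin g → ℤ[X]) (h : Fin k → ℕ) (a : Fin g → Fin d → ℤ)
    (Y : Fin g → Fin d → ℕ) : admP X F h a Y = Admh X (vals F) h a Y := by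
  unfold admP Admh
  have : box a Y = PO.cbox a Y := rfl
  rw [this]
  apply filter_congr
  intro c _
  rw [constP_eq, vals_poly, w_eq]

theorem main (hCT : S_CT) (d g k C : ℕ) (hd : 2 ≤ d) (hg : 1 ≤ g) (hk1 : 1 ≤ k) (hk : k + 1 ≤ d) :
    ∃ B : ℕ, ∀ ε : ℝ, 0 < ε → ∃ X0 : ℕ, ∀ X : ℕ, X0 ≤ X → ∀ N : ℕ, (N : ℝ) ^ (5 * (d - 1)) * Real.log X ^ B ≤ X →
    ∀ (F : Fin g → ℤ[X]) (a : Fin g → Fin d → ℤ) (Y : Fin g → Fin d → ℕ), Sizes2 C X N F a Y →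
    ∀ h : Fin k → ℕ, Function.Injective h → (∀ i, (h i : ℝ) ≤ Real.log X ^ C) →
    ∀ m M : ℕ, Real.log X ^ (g * k + 2) ≤ M → (m : ℝ) + M + Real.log X ^ (C + g * k + 5) ≤ N →
    (((admP X F h a Y).filter (fun c => ε * (constP (poly F c) h (w X) * M) <
      |psiP X d (poly F c) h m M - constP (poly F c) h (w X) * M|)).card : ℝ) ≤ ε * (admP X F h a Y).card := by
  obtain ⟨B, hB⟩ := almosth hCT d g k C C hd hg hk1 hk
  refine ⟨B, fun ε hε => ?_⟩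
  obtain ⟨X0, h0⟩ := hB ε hε
  refine ⟨X0, fun X hX N hNX F a Y hS h hinj hh m M hM hmM => ?_⟩
  have h1 := h0 X hX m M N hM hmM hNX h hinj hh (vals F) (per_vals F) (fun l n hn1 hn2 => hS.1 l n hn1 hn2) a Y hS.2
  rw [admP_eq]
  simp only [constP_eq, psiP_eq, vals_poly, w_eq]
  exact h1

theorem main_adm (d g k C : ℕ) (hd : 2 ≤ d) (hk : k ≤ d) : ∃ c1 : ℝ, 0 < c1 ∧ ∃ X0 : ℕ, ∀ X : ℕ, X0 ≤ X →
    ∀ (F : Fin g → ℤ[X]) (h : Fin k → ℕ) (a : Fin g → Fin d → ℤ) (Y : Fin g → Fin d → ℕ),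
    (∀ l j, (X : ℝ) / Real.log X ^ C ≤ Y l j) → c1 * (box a Y).card ≤ (admP X F h a Y).card := by
  obtain ⟨c0, hc0, X0, h0⟩ := Adm.t_ADMH Run7.h13.PO.t_COUNT d g k C hd hk
  refine ⟨c0, hc0, X0, fun X hX F h a Y hY => ?_⟩
  have h1 := h0 X hX (vals F) (per_vals F) h a Y hY
  rw [admP_eq]
  refine le_trans (le_of_eq ?_) h1
  congr 1
  unfold box
  rw [Fintype.card_piFinset]
  push_cast
  apply prod_congr rfl
  intro l _
  rw [Fintype.card_piFinset]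
  push_cast
  apply prod_congr rfl
  intro j _
  rw [Int.card_Ico]
  simp

/-! ## quadratics -/

open Pool.Agent.Run7.h385.PQ.Quad (val bx tc te tY tc_inj tc_surj eval_tc mem_box_tc)

/-- the number of the residues `t` modulo `p` such that `p` divides one of the `f(t + h_i)` -/
def omq {k : ℕ} (q : ℤ × ℤ × ℤ) (h : Fin k → ℕ) (p : ℕ) : ℕ :=
  ((range p).filter (fun t : ℕ => ∃ i, (p : ℤ) ∣ val q (t + h i))).card

noncomputable def cstq {k : ℕ} (q : ℤ × ℤ × ℤ) (h : Fin k → ℕ) (w : ℕ) : ℝ :=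
  ∏ p ∈ (range (w + 1)).filter Nat.Prime, (1 - (omq q h p : ℝ) / p) / (1 - 1 / (p : ℝ)) ^ k

noncomputable def psiq {k : ℕ} (X : ℕ) (q : ℤ × ℤ × ℤ) (h : Fin k → ℕ) (m M : ℕ) : ℝ :=
  ∑ t ∈ (Ioc m (m + M)).filter (fun t : ℕ => ∀ i, (val q (t + h i)).natAbs.Prime), Real.log (X * ((t : ℝ) + 1) ^ 2) ^ k

noncomputable def amq {k : ℕ} (X : ℕ) (h : Fin k → ℕ) (A : ℤ × ℤ × ℤ) (Y : ℕ × ℕ × ℕ) : Finset (ℤ × ℤ × ℤ) :=
  (bx A Y).filter (fun q => 0 < cstq q h (w X))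

lemma cst_tc {k : ℕ} (q : ℤ × ℤ × ℤ) (h : Fin k → ℕ) (w : ℕ) :
    constP (poly (0 : Fin 1 → ℤ[X]) (tc q)) h w = cstq q h w := by
  unfold constP cstq primes
  apply prod_congr rfl
  intro p _
  have e : omegaP (poly (0 : Fin 1 → ℤ[X]) (tc q)) h p = omq q h p := by
    unfold omegaP omq
    congr 1
    apply filter_congr
    intro t _
    simp only [eval_tc]
    constructor
    · rintro ⟨_, h⟩; exact h
    · intro h; exact ⟨0, h⟩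
  rw [e, one_mul]

lemma psi_tc {k : ℕ} (X : ℕ) (q : ℤ × ℤ × ℤ) (h : Fin k → ℕ) (m M : ℕ) :
    psiP X 3 (poly (0 : Fin 1 → ℤ[X]) (tc q)) h m M = psiq X q h m M := by
  unfold psiP psiq
  rw [one_mul]
  apply sum_congr _ (fun _ _ => rfl)
  apply filter_congr
  intro t _
  simp only [eval_tc]
  constructor
  · intro h; exact h 0
  · intro h _; exact h

lemma amq_tc {k : ℕ} (X : ℕ) (h : Fin k → ℕ) (A : ℤ × ℤ × ℤ) (Y : ℕ × ℕ × ℕ) :
    admP X (0 : Fin 1 → ℤ[X]) h (tc A) (tY Y) = (amq X h A Y).map te := by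
  ext c
  rw [mem_map]
  constructor
  · intro h1
    refine ⟨(c 0 2, c 0 1, c 0 0), ?_, tc_surj c⟩
    rw [← tc_surj c] at h1
    unfold admP at h1
    rw [mem_filter, mem_box_tc, cst_tc] at h1
    unfold amq
    rw [mem_filter]
    exact h1
  · rintro ⟨q, hq, rfl⟩
    unfold amq at hq
    rw [mem_filter] at hq
    unfold admP
    rw [mem_filter]
    change tc q ∈ _ ∧ 0 < constP (poly 0 (tc q)) h (w X)
    rw [mem_box_tc, cst_tc]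
    exact hq

theorem mainq (hCT : S_CT) (k C : ℕ) (hk1 : 1 ≤ k) (hk : k ≤ 2) :
    ∃ B : ℕ, ∀ ε : ℝ, 0 < ε → ∃ X0 : ℕ, ∀ X : ℕ, X0 ≤ X → ∀ N : ℕ, (N : ℝ) ^ 10 * Real.log X ^ B ≤ X →
    ∀ (A : ℤ × ℤ × ℤ) (Y : ℕ × ℕ × ℕ), (|(A.1 : ℝ)| ≤ X ∧ |(A.2.1 : ℝ)| ≤ X ∧ |(A.2.2 : ℝ)| ≤ X) →
      ((X : ℝ) / Real.log X ^ C ≤ Y.1 ∧ (X : ℝ) / Real.log X ^ C ≤ Y.2.1 ∧ (X : ℝ) / Real.log X ^ C ≤ Y.2.2) →
      ((Y.1 : ℝ) ≤ X ∧ (Y.2.1 : ℝ) ≤ X ∧ (Y.2.2 : ℝ) ≤ X) →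
    ∀ h : Fin k → ℕ, Function.Injective h → (∀ i, (h i : ℝ) ≤ Real.log X ^ C) →
    ∀ m M : ℕ, Real.log X ^ (k + 2) ≤ M → (m : ℝ) + M + Real.log X ^ (C + k + 5) ≤ N →
    (((amq X h A Y).filter (fun q => ε * (cstq q h (w X) * M) <
      |psiq X q h m M - cstq q h (w X) * M|)).card : ℝ) ≤ ε * (amq X h A Y).card := by
  obtain ⟨B, hB⟩ := main hCT 3 1 k C (by norm_num) le_rfl hk1 (by omega)
  refine ⟨B, fun ε hε => ?_⟩
  obtain ⟨X0, h0⟩ := hB ε hε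
  refine ⟨X0, fun X hX N hN A Y hA hY1 hY2 h hinj hh m M hM hmM => ?_⟩
  have hS : Sizes2 C X N (0 : Fin 1 → ℤ[X]) (tc A) (tY Y) := by
    refine ⟨fun l n _ _ => ?_, fun l j => ?_⟩
    · simp only [Pi.zero_apply, Polynomial.eval_zero, Int.cast_zero, abs_zero]
      have : 0 ≤ Real.log X := Real.log_natCast_nonneg X
      positivity
    · fin_cases j
      · exact ⟨hA.2.2, hY1.2.2, hY2.2.2⟩
      · exact ⟨hA.2.1, hY1.2.1, hY2.2.1⟩
      · exact ⟨hA.1, hY1.1, hY2.1⟩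
  have h1 := h0 X hX N hN 0 (tc A) (tY Y) hS h hinj hh m M (by rwa [one_mul]) (by rwa [one_mul])
  rw [amq_tc, card_map, filter_map, card_map] at h1
  refine le_trans (le_of_eq ?_) h1
  congr 2
  apply filter_congr
  intro q _
  simp only [Function.comp]
  change _ ↔ ε * (constP (poly 0 (tc q)) h (w X) * M) <
      |psiP X 3 (poly 0 (tc q)) h m M - constP (poly 0 (tc q)) h (w X) * M|
  rw [cst_tc, psi_tc]

theorem mainq_adm (k C : ℕ) (hk : k ≤ 3) : ∃ c1 : ℝ, 0 < c1 ∧ ∃ X0 : ℕ, ∀ X : ℕ, X0 ≤ X →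
    ∀ (h : Fin k → ℕ) (A : ℤ × ℤ × ℤ) (Y : ℕ × ℕ × ℕ),
      ((X : ℝ) / Real.log X ^ C ≤ Y.1 ∧ (X : ℝ) / Real.log X ^ C ≤ Y.2.1 ∧ (X : ℝ) / Real.log X ^ C ≤ Y.2.2) →
      c1 * (bx A Y).card ≤ (amq X h A Y).card := by
  obtain ⟨c1, hc1, X0, h0⟩ := main_adm 3 1 k C (by norm_num) hk
  refine ⟨c1, hc1, X0, fun X hX h A Y hY => ?_⟩
  have h1 := h0 X hX 0 h (tc A) (tY Y) (by
    intro l j
    fin_cases j
    · exact hY.2.2
    · exact hY.2.1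
    · exact hY.1)
  rw [amq_tc, card_map] at h1
  have e : (box (tc A) (tY Y)).card = (bx A Y).card := by
    have : box (tc A) (tY Y) = (bx A Y).map te := by
      ext c
      rw [mem_map]
      constructor
      · intro h
        refine ⟨(c 0 2, c 0 1, c 0 0), ?_, tc_surj c⟩
        rw [← tc_surj c, mem_box_tc] at h
        exact h
      · rintro ⟨q, hq, rfl⟩
        exact (mem_box_tc A Y q).2 hq
    rw [this, card_map]
  rw [e] at h1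
  exact h1

end Pool.Agent.Run7.h385.PT.Fin3
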