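import Pool.Agent.Run7.h385.PT.ALL2
import Pool.Agent.Run7.h385.PT.Asm

/-! # Project PT at the optimal scale: polynomial language -/

set_option autoImplicit false

namespace Pool.Agent.Run7.h385.PT.Fin4

open Finset hiding box
open scoped Polynomial
open Pool.Agent.H373R2.T7
open Pool.Agent.Run7.h385
open Pool.Agent.Run7.h385.PO.Fin1 (poly primes w box vals vals_poly per_vals primes_eq w_eq)
open Pool.Agent.Run7.h385.PQ.Fin2 (Sizes2)
open Pool.Agent.Run7.h385.PT.Fin3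

/-- the number of tuples expected in the window -/
noncomputable def expP {g k : ℕ} (X d : ℕ) (f : Fin g → ℤ[X]) (h : Fin k → ℕ) (m M : ℕ) : ℝ :=
  constP f h (w X) * M / Real.log (X * ((m : ℝ) + 1) ^ (d - 1)) ^ (g * k)

theorem main (d g k C : ℕ) (hd : 2 ≤ d) (hg : 1 ≤ g) (hk1 : 1 ≤ k) (hk : k + 1 ≤ d) :
    ∃ B : ℕ, ∀ ε : ℝ, 0 < ε → ∃ Lam : ℝ, ∃ X0 : ℕ, ∀ X : ℕ, X0 ≤ X → ∀ N : ℕ,
    (N : ℝ) ^ (5 * (d - 1)) * Real.log X ^ B ≤ X →
    ∀ (F : Fin g → ℤ[X]) (a : Fin g → Fin d → ℤ) (Y : Fin g → Fin d → ℕ), Sizes2 C X N F a Y →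
    ∀ h : Fin k → ℕ, Function.Injective h → (∀ i, (h i : ℝ) ≤ Real.log X ^ C) →
    ∀ m M : ℕ, (m : ℝ) + M + Real.log X ^ (C + g * k + 5) ≤ N →
    (((admP X F h a Y).filter (fun c => Lam ≤ expP X d (poly F c) h m M ∧ ε * (constP (poly F c) h (w X) * M) <
      |psiP X d (poly F c) h m M - constP (poly F c) h (w X) * M|)).card : ℝ) ≤ ε * (admP X F h a Y).card := by
  obtain ⟨B, hB⟩ := almosth2 a_CT t_CT2 d g k C C hd hg hk1 hk
  refine ⟨B, fun ε hε => ?_⟩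
  obtain ⟨Lam, hLam, X0, h0⟩ := hB ε hε
  obtain ⟨n3, h3⟩ := ev_L' 1
  refine ⟨Lam, max X0 (max n3 1), fun X hX N hNX F a Y hS h hinj hh m M hmM => ?_⟩
  have hL1 := h3 X (le_trans (le_trans (le_max_left _ _) (le_max_right _ _)) hX)
  have hX1 : 1 ≤ X := le_trans (le_trans (le_max_right _ _) (le_max_right _ _)) hX
  have h1 := h0 X (le_trans (le_max_left _ _) hX) m M N hmM hNX h hinj hh (vals F) (per_vals F)
    (fun l n hn1 hn2 => hS.1 l n hn1 hn2) a Y hS.2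
  refine le_trans ?_ (le_trans h1 (le_of_eq ?_))
  · rw [admP_eq]
    apply Nat.cast_le.2
    apply card_le_card
    intro c hc
    rw [mem_filter] at hc ⊢
    obtain ⟨h4, h5, h6⟩ := hc
    simp only [constP_eq, psiP_eq, vals_poly, w_eq] at h6
    refine ⟨h4, ?_, h6⟩
    unfold expP at h5
    rw [constP_eq, vals_poly, w_eq] at h5
    have hlg : 0 < PQ.lg X d m := by
      have := PQ.lg_ge X d m hX1
      linarith
    have e : Real.log (X * ((m : ℝ) + 1) ^ (d - 1)) = PQ.lg X d m := rfl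
    rw [e, le_div_iff₀ (by positivity)] at h5
    exact h5
  · rw [admP_eq]

/-- for windows longer than `(log X)^(gk+1)` many tuples are expected -/
theorem exp_large (d g k : ℕ) (Lam : ℝ) : ∃ X0 : ℕ, ∀ X : ℕ, X0 ≤ X → ∀ (f : Fin g → ℤ[X]) (h : Fin k → ℕ),
    0 < constP f h (w X) → ∀ m M : ℕ, ((m : ℝ) + 1) ^ (d - 1) ≤ X → Real.log X ^ (g * k + 1) ≤ M →
    Lam ≤ expP X d f h m M := by
  obtain ⟨n3, h3⟩ := Run7.h215.PO.t_WSMALL.2
  obtain ⟨n4, h4⟩ := ev_L' (max 1 ((|Lam| * 2 ^ (g * k)) ^ 2))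
  refine ⟨max n3 (max n4 1), fun X hX f h hf m M hm hM => ?_⟩
  obtain ⟨hWsq, hW1, _⟩ := h3 X (le_trans (le_max_left _ _) hX)
  have a4 := h4 X (le_trans (le_trans (le_max_left _ _) (le_max_right _ _)) hX)
  have hX1 : 1 ≤ X := le_trans (le_trans (le_max_right _ _) (le_max_right _ _)) hX
  have hX0 : (0 : ℝ) < X := by exact_mod_cast hX1
  set L := Real.log X with hL
  have hL1 : 1 ≤ L := (le_max_left _ _).trans a4
  have hL0 : 0 < L := by linarith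
  have hsL : √L * √L = L := Real.mul_self_sqrt hL0.le
  have hsL1 : 1 ≤ √L := by rw [Real.one_le_sqrt]; exact hL1
  have hs : |Lam| * 2 ^ (g * k) ≤ √L := Real.le_sqrt_of_sq_le ((le_max_right _ _).trans a4)
  have hWr1 : (1 : ℝ) ≤ PO.WW X := by exact_mod_cast hW1
  have hWL : (PO.WW X : ℝ) ≤ √L := by
    rw [← Real.sqrt_sq (show (0 : ℝ) ≤ PO.WW X by positivity)]
    exact Real.sqrt_le_sqrt hWsq
  rw [constP_eq, w_eq] at hf
  have h7 := PO.sing_ge (uu (vals f) h) (PO.ww X) (by rw [sing_uu]; exact hf)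
  rw [sing_uu] at h7
  have h8 : 1 / √L ≤ singh (vals f) h (PO.ww X) :=
    le_trans (one_div_le_one_div_of_le (by linarith) hWL) h7
  unfold expP
  rw [constP_eq, w_eq]
  have hlg : L ≤ Real.log (X * ((m : ℝ) + 1) ^ (d - 1)) := PQ.lg_ge X d m hX1
  have hlg2 : Real.log (X * ((m : ℝ) + 1) ^ (d - 1)) ≤ 2 * L := by
    rw [Real.log_mul hX0.ne' (by positivity)]
    have h8 := Real.log_le_log (by positivity) hm
    linarith
  rw [le_div_iff₀ (pow_pos (by linarith) _)]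
  calc Lam * Real.log (X * ((m : ℝ) + 1) ^ (d - 1)) ^ (g * k) ≤
        |Lam| * (2 * L) ^ (g * k) := by
        apply mul_le_mul (le_abs_self _) (pow_le_pow_left₀ (by linarith) hlg2 _) (pow_nonneg (by linarith) _) (abs_nonneg _)
    _ = (|Lam| * 2 ^ (g * k)) * L ^ (g * k) := by rw [mul_pow]; ring
    _ ≤ √L * L ^ (g * k) := mul_le_mul_of_nonneg_right hs (by positivity)
    _ = 1 / √L * L ^ (g * k + 1) := by
        rw [pow_succ, one_div, ← div_eq_inv_mul, eq_div_iff (by positivity)]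
        calc √L * L ^ (g * k) * √L = (√L * √L) * L ^ (g * k) := by ring
          _ = L ^ (g * k) * L := by rw [hsL]; ring
    _ ≤ singh (vals f) h (PO.ww X) * M := mul_le_mul h8 hM (by positivity) hf.le

/-! ## quadratics -/

open Pool.Agent.Run7.h385.PQ.Quad (val bx tc te tY tc_inj tc_surj eval_tc mem_box_tc)

noncomputable def expq {k : ℕ} (X : ℕ) (q : ℤ × ℤ × ℤ) (h : Fin k → ℕ) (m M : ℕ) : ℝ :=
  cstq q h (w X) * M / Real.log (X * ((m : ℝ) + 1) ^ 2) ^ k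

theorem mainq (k C : ℕ) (hk1 : 1 ≤ k) (hk : k ≤ 2) :
    ∃ B : ℕ, ∀ ε : ℝ, 0 < ε → ∃ Lam : ℝ, ∃ X0 : ℕ, ∀ X : ℕ, X0 ≤ X → ∀ N : ℕ, (N : ℝ) ^ 10 * Real.log X ^ B ≤ X →
    ∀ (A : ℤ × ℤ × ℤ) (Y : ℕ × ℕ × ℕ), (|(A.1 : ℝ)| ≤ X ∧ |(A.2.1 : ℝ)| ≤ X ∧ |(A.2.2 : ℝ)| ≤ X) →
      ((X : ℝ) / Real.log X ^ C ≤ Y.1 ∧ (X : ℝ) / Real.log X ^ C ≤ Y.2.1 ∧ (X : ℝ) / Real.log X ^ C ≤ Y.2.2) →
      ((Y.1 : ℝ) ≤ X ∧ (Y.2.1 : ℝ) ≤ X ∧ (Y.2.2 : ℝ) ≤ X) →
    ∀ h : Fin k → ℕ, Function.Injective h → (∀ i, (h i : ℝ) ≤ Real.log X ^ C) →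
    ∀ m M : ℕ, (m : ℝ) + M + Real.log X ^ (C + k + 5) ≤ N →
    (((amq X h A Y).filter (fun q => Lam ≤ expq X q h m M ∧ ε * (cstq q h (w X) * M) <
      |psiq X q h m M - cstq q h (w X) * M|)).card : ℝ) ≤ ε * (amq X h A Y).card := by
  obtain ⟨B, hB⟩ := main 3 1 k C (by norm_num) le_rfl hk1 (by omega)
  refine ⟨B, fun ε hε => ?_⟩
  obtain ⟨Lam, X0, h0⟩ := hB ε hε
  refine ⟨Lam, X0, fun X hX N hN A Y hA hY1 hY2 h hinj hh m M hmM => ?_⟩
  have hS : Sizes2 C X N (0 : Fin 1 → ℤ[X]) (tc A) (tY Y) := by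
    refine ⟨fun l n _ _ => ?_, fun l j => ?_⟩
    · simp only [Pi.zero_apply, Polynomial.eval_zero, Int.cast_zero, abs_zero]
      have : 0 ≤ Real.log X := Real.log_natCast_nonneg X
      positivity
    · fin_cases j
      · exact ⟨hA.2.2, hY1.2.2, hY2.2.2⟩
      · exact ⟨hA.2.1, hY1.2.1, hY2.2.1⟩
      · exact ⟨hA.1, hY1.1, hY2.1⟩
  have h1 := h0 X hX N hN 0 (tc A) (tY Y) hS h hinj hh m M (by rwa [one_mul])
  rw [amq_tc, card_map, filter_map, card_map] at h1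
  refine le_trans (le_of_eq ?_) h1
  congr 2
  apply filter_congr
  intro q _
  simp only [Function.comp]
  change _ ↔ Lam ≤ expP X 3 (poly 0 (tc q)) h m M ∧ ε * (constP (poly 0 (tc q)) h (w X) * M) <
      |psiP X 3 (poly 0 (tc q)) h m M - constP (poly 0 (tc q)) h (w X) * M|
  have e : expP X 3 (poly (0 : Fin 1 → ℤ[X]) (tc q)) h m M = expq X q h m M := by
    unfold expP expq
    rw [cst_tc, one_mul]
  rw [cst_tc, psi_tc, e]

theorem expq_large (k : ℕ) (Lam : ℝ) : ∃ X0 : ℕ, ∀ X : ℕ, X0 ≤ X → ∀ (q : ℤ × ℤ × ℤ) (h : Fin k → ℕ),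
    0 < cstq q h (w X) → ∀ m M : ℕ, ((m : ℝ) + 1) ^ 2 ≤ X → Real.log X ^ (k + 1) ≤ M → Lam ≤ expq X q h m M := by
  obtain ⟨X0, h0⟩ := exp_large 3 1 k Lam
  refine ⟨X0, fun X hX q h hq m M hm hM => ?_⟩
  have h1 := h0 X hX (poly (0 : Fin 1 → ℤ[X]) (tc q)) h (by rw [cst_tc]; exact hq) m M hm (by rwa [one_mul])
  have e : expP X 3 (poly (0 : Fin 1 → ℤ[X]) (tc q)) h m M = expq X q h m M := by
    unfold expP expq
    rw [cst_tc, one_mul]
  rw [e] at h1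
  exact h1

end Pool.Agent.Run7.h385.PT.Fin4
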