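import Pool.Agent.Run7.h385.PQ.Asm

/-!
# Project PT: the tuples conjecture along almost every polynomial

Interface file (continuation of project PQ).  `f_l = F_l + sum_(j<d) c_lj x^j`, `l < g`, and shifts
`h_1, …, h_k`, `k ≤ d - 1`: for almost every system the formula of Bateman and Horn holds for the system
of the `g k` polynomials `f_l(x + h_i)`.  Never write a double quote.
-/

set_option autoImplicit false

namespace Pool.Agent.Run7.h385.PT

open Finset hiding box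
open Pool.Agent.H373R2.T7
open Pool.Agent.H807R2.Dav
open Pool.Agent.Run7.h385.PO
open Pool.Agent.Run7.h385.PQ

/-- all values of the system at the points `n + h_i` are prime -/
def allp {g k : ℕ} (f : Fin g → ℕ → ℤ) (h : Fin k → ℕ) (n : ℕ) : Prop := ∀ l i, (f l (n + h i)).natAbs.Prime

instance {g k : ℕ} (f : Fin g → ℕ → ℤ) (h : Fin k → ℕ) : DecidablePred (allp f h) := fun n => by
  unfold allp; infer_instance

/-- the number of the residues `n` modulo `p` such that `p` divides one of the `f l (n + h i)` -/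
def omh {g k : ℕ} (f : Fin g → ℕ → ℤ) (h : Fin k → ℕ) (p : ℕ) : ℕ :=
  ((range p).filter (fun n => ∃ l i, (p : ℤ) ∣ f l (n + h i))).card

/-- the truncated constant of Bateman and Horn of the system of the `f l (x + h i)` -/
noncomputable def singh {g k : ℕ} (f : Fin g → ℕ → ℤ) (h : Fin k → ℕ) (w : ℕ) : ℝ :=
  ∏ p ∈ pz w, (1 - (omh f h p : ℝ) / p) / (1 - 1 / (p : ℝ)) ^ (g * k)

/-- the weighted count -/
noncomputable def psi {g k : ℕ} (X d : ℕ) (f : Fin g → ℕ → ℤ) (h : Fin k → ℕ) (m M : ℕ) : ℝ :=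
  ∑ n ∈ (Ioc m (m + M)).filter (allp f h), lg X d n ^ (g * k)

/-- ADMH (adapt `Pool/Agent/Run7/h215/PO/ADM.lean`).  `0 < singh` means: for each `p ≤ w` there is an `n` such that
`f_l(n + h_i) ≢ 0` modulo `p` for all `l, i`.  Positive density at each `p`: `n = 0` and, because `k ≤ d`, by
Lagrange interpolation over `ZMod p` (at the distinct classes among the `h_i`; `Lagrange.interpolate`,
`degree_interpolate_lt`) there are `c_l` with `f_l(h_i) ≡ 1`.  For `p > k²` take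
`n_0 = 0` and an `n_1` which is not congruent to any `h_i - h_i'`: if `c` is bad then `p` divides some `f_l(h_i)` and some
`f_l'(n_1 + h_i')`, two different arguments modulo `p`: proportion at most `(g k)² / p²`. -/
def S_ADMH : Prop :=
  ∀ (d g k C : ℕ), 2 ≤ d → k ≤ d → ∃ c0 : ℝ, 0 < c0 ∧
    ∃ X0 : ℕ, ∀ X : ℕ, X0 ≤ X → ∀ F : Fin g → ℕ → ℤ,
    (∀ l, ∀ p n : ℕ, (p : ℤ) ∣ F l (n + p) - F l n) → ∀ h : Fin k → ℕ,
    ∀ (a : Fin g → Fin d → ℤ) (Y : Fin g → Fin d → ℕ), (∀ l j, (X : ℝ) / Real.log X ^ C ≤ Y l j) →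
    c0 * ∏ l, ∏ j, (Y l j : ℝ) ≤ (((cbox a Y).filter (fun c => 0 < singh (fv F c) h (ww X))).card : ℝ)

/-- CT (about 250 lines; uses `a_JM : S_JM` of `PQ/Asm.lean`, `TINY2`, `TCOUNT`, `WSMALL`: see `PQ/CLSJ.lean` for the
same situation and `PQ/WIN.lean` for the use of TCOUNT): second moment of `psi` in one class modulo `W`.
`P = ∏ Y`, `R = rho2 X d m = V⁻¹ / lg`, `lg = lg X d m`, `V = Vz w`, `r = R^(g k)`, `S = singh u h w > 0`, `P` counts the
`t`.  `X_n(t) = 1` if all values at the `n + h_i` are prime; `a_n = 1` if no `p ≤ w` divides a `u_l(n + h_i)`.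
(1) JM with `T = {n + h_i}`, `T' = {n' + h_i}`, both moments of order `k` (`(pc T)_k = k! X_n`): if `a_n = a_n' = 1` and
`T, T'` are disjoint then `∑_t X_n X_n' = (1 + O(ε)) r² P`; JM with the second order `0`: `∑_t X_n = (1 + O(ε)) r P`.
(2) if `a_n = 0` then `X_n(t) = 0` unless a value is a prime `p ≤ w`: `t` in the set of TINY2, of size at most
`P / L^(big)`.
(3) TCOUNT for the system of the `g k` functions `x ↦ u_l(x + h_i)` (index `Fin (g * k)` by `finProdFinEquiv`):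
`∑_n a_n = M ∏ (1 - omh/p) (1 + o(1))`, error `W ≤ √L` and `M ∏(1 - omh/p) ≥ M / W`.  So `r ∑ a_n = S M / lg^(g k) (1 + o(1))`.
(4) `n' - n` is in `{h_i - h_i'}` (not disjoint) for at most `k²` values `n'` for each `n`: these pairs contribute at most
`k² · r P ∑ a_n (1 + ε) · lg^(2 g k)`, small relative to `(S M)² P` because `M ≥ L^(g k + 1)`, `S ≥ 1 / W ≥ L^(-1/2)`.
(5) `lg X d n = lg X d m (1 + O(log L / L))` for `m ≤ n ≤ m + L^C`.
Then `∑_t (psi - S M)² = ∑ psi² - 2 S M ∑ psi + (S M)² P`. -/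
def S_CT : Prop :=
  ∀ (d g k C : ℕ), 2 ≤ d → 1 ≤ g → 1 ≤ k → k + 1 ≤ d → ∃ B : ℕ, ∀ ε : ℝ, 0 < ε → ∃ X0 : ℕ, ∀ X : ℕ, X0 ≤ X →
    ∀ m : ℕ, ((m : ℝ) + 1) ^ (5 * (d - 1)) * Real.log X ^ B ≤ X → ∀ M : ℕ, Real.log X ^ (g * k + 1) ≤ M →
    (M : ℝ) ≤ Real.log X ^ C → ∀ h : Fin k → ℕ, Function.Injective h → (∀ i, (h i : ℝ) ≤ Real.log X ^ C) →
    ∀ u : Fin g → ℕ → ℤ, (∀ l, ∀ p n : ℕ, (p : ℤ) ∣ u l (n + p) - u l n) →
    (∀ l i, ∀ n : ℕ, m < n → n ≤ m + M →
      |(u l (n + h i) : ℝ)| ≤ X * ((m : ℝ) + 1) ^ (d - 1) * Real.log X ^ C) → 0 < singh u h (ww X) →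
    ∀ Y : Fin g → Fin d → ℕ, (∀ l j, (X : ℝ) / Real.log X ^ C ≤ Y l j ∧ (Y l j : ℝ) ≤ X) →
    ∑ t ∈ Fintype.piFinset (fun l => box (Y l)),
      (psi X d (fun l n => u l n + ev (WW X) (t l) n) h m M - singh u h (ww X) * M) ^ 2 ≤
      ε * (singh u h (ww X) * M) ^ 2 * ∏ l, ∏ j, (Y l j : ℝ)

end Pool.Agent.Run7.h385.PT
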